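import Pool.Agent.Lib.H20WE.Defs

/-! # A1: rules for upper bounds -/

set_option autoImplicit false

namespace Pool.Agent.Lib.H20WE

open Finset Polynomial Pool.Agent.Lib.H20WD
open scoped Classical

variable {V : Type}

/-- Proof. `cnt_congr`. -/
theorem Ub.congr {H H' : SimpleGraph V} {S : Finset V} {p : ℕ[X]}
    (h : ∀ a ∈ S, ∀ b ∈ S, (H.Adj a b ↔ H'.Adj a b)) (hp : Ub H S p) : Ub H' S p := by
  intro q
  rw [← cnt_congr h]
  exact hp q

private theorem A1_card {S : Finset V} {v : V} (hv : v ∈ S) : #S = #(S.erase v) + 1 := by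
  rw [card_erase_of_mem hv]
  have := card_pos.2 ⟨v, hv⟩
  omega

/-- Proof. `#S = m + 1` with `m = #(S.erase v)`. `q = 0`: `cnt_zero`. `q + 1`: `cnt_iso`,
`lam_succ_le`. -/
theorem Ub.iso {H : SimpleGraph V} {S : Finset V} {p : ℕ[X]} {v : V} (hv : v ∈ S)
    (h : ∀ w ∈ S, ¬ H.Adj v w) (hp : Ub H (S.erase v) p) : Ub H S p := by
  intro q
  rw [A1_card hv]
  cases q with
  | zero =>
    rw [cnt_zero H ⟨v, hv⟩]
    exact Nat.zero_le _
  | succ q =>
    rw [cnt_iso H hv h]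
    exact (Nat.mul_le_mul_left _ (hp q)).trans (lam_succ_le _ _ _)

/-- Proof. `cnt_edge`, `lam_add`, `lam_X` (`#S = #(S.erase v) + 1`). -/
theorem Ub.edge {H : SimpleGraph V} {S : Finset V} {p1 p2 : ℕ[X]} {u v : V} (hu : u ∈ S)
    (hv : v ∈ S) (huv : H.Adj u v) (h1 : Ub (del H u v) S p1)
    (h2 : Ub (ctr H u v) (S.erase v) p2) : Ub H S (p1 + X * p2) := by
  intro q
  rw [cnt_edge H hu hv huv, lam_add]
  refine Nat.add_le_add (h1 q) ?_
  rw [A1_card hv, lam_X]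
  exact h2 q

/-- Proof. `q = 0`: `cnt_zero`. `q + 1`: `cnt_pend`, `lam_add`, `lam_X`, `lam_succ_le`. -/
theorem Ub.pend {H : SimpleGraph V} {S : Finset V} {p p' : ℕ[X]} {u v : V} (hu : u ∈ S)
    (hv : v ∈ S) (huv : H.Adj v u) (h : ∀ w ∈ S, H.Adj v w → w = u) (hp : Ub H (S.erase v) p)
    (hp' : Ub H ((S.erase v).erase u) p') : Ub H S (p + X * p') := by
  have hue : u ∈ S.erase v := mem_erase.2 ⟨huv.ne', hu⟩
  intro q
  rw [A1_card hv]
  cases q with
  | zero =>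
    rw [cnt_zero H ⟨v, hv⟩]
    exact Nat.zero_le _
  | succ q =>
    rw [cnt_pend H hu hv huv h]
    refine (Nat.mul_le_mul_left _ ?_).trans (lam_succ_le _ _ _)
    rw [lam_add]
    refine Nat.add_le_add (hp q) ?_
    rw [A1_card hue, lam_X]
    exact hp' q

/-- Proof. `q = 0`: `cnt_zero`. `q + 1`: `cnt_two`, `lam_add`, `lam_X`, `lam_succ_le`. -/
theorem Ub.two {H : SimpleGraph V} {S : Finset V} {p1 p2 p3 : ℕ[X]} {u v w : V} (hu : u ∈ S)
    (hv : v ∈ S) (hw : w ∈ S) (hne : u ≠ w) (hvu : H.Adj v u) (hvw : H.Adj v w)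
    (huw : ¬ H.Adj u w) (h : ∀ x ∈ S, H.Adj v x → x = u ∨ x = w) (h1 : Ub H (S.erase v) p1)
    (h2 : Ub H ((S.erase v).erase w) p2) (h3 : Ub H ((S.erase v).erase u) p3) :
    Ub H S (p1 + X * p2 + X * p3) := by
  have hue : u ∈ S.erase v := mem_erase.2 ⟨hvu.ne', hu⟩
  have hwe : w ∈ S.erase v := mem_erase.2 ⟨hvw.ne', hw⟩
  intro q
  rw [A1_card hv]
  cases q with
  | zero =>
    rw [cnt_zero H ⟨v, hv⟩]
    exact Nat.zero_le _
  | succ q =>
    rw [cnt_two H hu hv hw hne hvu hvw huw h]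
    refine (Nat.mul_le_mul_left _ ?_).trans (lam_succ_le _ _ _)
    rw [lam_add, lam_add]
    refine Nat.add_le_add (Nat.add_le_add (h1 q) ?_) ?_
    · rw [A1_card hwe, lam_X]
      exact h2 q
    · rw [A1_card hue, lam_X]
      exact h3 q

/-- Proof. `q = 0`: `cnt_zero`. `q + 1`: `cnt_three`, `lam_add`, `lam_X`, `lam_succ_le`. -/
theorem Ub.three {H : SimpleGraph V} {S : Finset V} {p1 p2 p3 p4 : ℕ[X]} {u v w : V} (hu : u ∈ S)
    (hv : v ∈ S) (hw : w ∈ S) (hvu : H.Adj v u) (hvw : H.Adj v w) (huw : H.Adj u w)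
    (h : ∀ x ∈ S, H.Adj v x → x = u ∨ x = w) (h1 : Ub H (S.erase v) p1)
    (h2 : Ub H ((S.erase v).erase w) p2) (h3 : Ub H ((S.erase v).erase u) p3)
    (h4 : Ub H (((S.erase v).erase u).erase w) p4) :
    Ub H S (p1 + X * p2 + X * (p3 + X * p4)) := by
  have hue : u ∈ S.erase v := mem_erase.2 ⟨hvu.ne', hu⟩
  have hwe : w ∈ S.erase v := mem_erase.2 ⟨hvw.ne', hw⟩
  have hweu : w ∈ (S.erase v).erase u := mem_erase.2 ⟨huw.ne', hwe⟩
  intro q
  rw [A1_card hv]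
  cases q with
  | zero =>
    rw [cnt_zero H ⟨v, hv⟩]
    exact Nat.zero_le _
  | succ q =>
    rw [cnt_three H hu hv hw hvu hvw huw h]
    refine (Nat.mul_le_mul_left _ ?_).trans (lam_succ_le _ _ _)
    rw [lam_add, lam_add, add_assoc (cnt H (S.erase v) q + cnt H ((S.erase v).erase w) q)]
    refine Nat.add_le_add (Nat.add_le_add (h1 q) ?_) ?_
    · rw [A1_card hwe, lam_X]
      exact h2 q
    · rw [A1_card hue, lam_X, lam_add]
      refine Nat.add_le_add (h3 q) ?_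
      rw [A1_card hweu, lam_X]
      exact h4 q

end Pool.Agent.Lib.H20WE
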