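import Pool.Agent.Lib.H20WE.A1

/-! # A2: components `K_2`, `K_3`, `K_4` -/

set_option autoImplicit false

namespace Pool.Agent.Lib.H20WE

open Finset Polynomial Pool.Agent.Lib.H20WD
open scoped Classical

variable {V : Type}

/-- Proof. `u` is isolated in `S.erase v` (`Ub.iso`); `Ub.pend`: `p + X * p = bb * p`. -/
theorem Ub.k2 {H : SimpleGraph V} {S : Finset V} {p : ℕ[X]} {u v : V} (hu : u ∈ S) (hv : v ∈ S)
    (huv : H.Adj v u) (h : ∀ x ∈ S, H.Adj v x → x = u) (h' : ∀ x ∈ S, H.Adj u x → x = v)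
    (hp : Ub H ((S.erase v).erase u) p) : Ub H S (bb * p) := by
  have h1 : Ub H (S.erase v) p :=
    Ub.iso (mem_erase.2 ⟨huv.ne.symm, hu⟩)
      (fun w hw hadj => (mem_erase.1 hw).1 (h' w (mem_erase.1 hw).2 hadj)) hp
  have h2 := Ub.pend hu hv huv h h1 hp
  have e : bb * p = p + X * p := by
    rw [bb]
    ring
  rw [e]
  exact h2

/-- Proof. `Ub.three`. In `S.erase v` the vertices `u`, `w` are a component `K_2` (`Ub.k2`):
`bb * p`; in `(S.erase v).erase w` and `(S.erase v).erase u` one vertex is isolated (`Ub.iso`): `p`.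
`bb * p + X * p + X * (p + X * p) = aa * p`. -/
theorem Ub.k3 {H : SimpleGraph V} {S : Finset V} {p : ℕ[X]} {u v w : V} (hu : u ∈ S) (hv : v ∈ S)
    (hw : w ∈ S) (hvu : H.Adj v u) (hvw : H.Adj v w) (huw : H.Adj u w)
    (h1 : ∀ x ∈ S, H.Adj v x → x = u ∨ x = w) (h2 : ∀ x ∈ S, H.Adj u x → x = v ∨ x = w)
    (h3 : ∀ x ∈ S, H.Adj w x → x = v ∨ x = u) (hp : Ub H (((S.erase v).erase u).erase w) p) :
    Ub H S (aa * p) := by
  have hu' : u ∈ S.erase v := mem_erase.2 ⟨hvu.ne.symm, hu⟩
  have hw' : w ∈ S.erase v := mem_erase.2 ⟨hvw.ne.symm, hw⟩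
  have a1 : Ub H (S.erase v) (bb * p) := by
    refine Ub.k2 hw' hu' huw ?_ ?_ hp
    · intro x hx hadj
      obtain ⟨hx1, hx2⟩ := mem_erase.1 hx
      exact (h2 x hx2 hadj).resolve_left hx1
    · intro x hx hadj
      obtain ⟨hx1, hx2⟩ := mem_erase.1 hx
      exact (h3 x hx2 hadj).resolve_left hx1
  have a3 : Ub H ((S.erase v).erase u) p := by
    refine Ub.iso (v := w) (mem_erase.2 ⟨huw.ne.symm, hw'⟩) ?_ hp
    intro x hx hadj
    obtain ⟨hx1, hx2⟩ := mem_erase.1 hx
    obtain ⟨hx3, hx4⟩ := mem_erase.1 hx2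
    rcases h3 x hx4 hadj with h | h
    · exact hx3 h
    · exact hx1 h
  have a2 : Ub H ((S.erase v).erase w) p := by
    refine Ub.iso (v := u) (mem_erase.2 ⟨huw.ne, hu'⟩) ?_ ?_
    · intro x hx hadj
      obtain ⟨hx1, hx2⟩ := mem_erase.1 hx
      obtain ⟨hx3, hx4⟩ := mem_erase.1 hx2
      rcases h2 x hx4 hadj with h | h
      · exact hx3 h
      · exact hx1 h
    · rw [erase_right_comm]
      exact hp
  have h := Ub.three hu hv hw hvu hvw huw h1 a1 a2 a3 hp
  have e : aa * p = bb * p + X * p + X * (p + X * p) := by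
    rw [aa, bb]
    ring
  rw [e]
  exact h

private theorem A2_nb {H : SimpleGraph V} {S : Finset V} {a b c d : V} (hb : b ∈ S) (hc : c ∈ S)
    (hd : d ∈ S) (hab : H.Adj a b) (hac : H.Adj a c) (had : H.Adj a d) (hbc : b ≠ c) (hbd : b ≠ d)
    (hcd : c ≠ d) (h : dg H S a = 3) (x : V) (hx : x ∈ S) (hadj : H.Adj a x) :
    x = b ∨ x = c ∨ x = d := by
  by_contra hne
  rw [not_or, not_or] at hne
  obtain ⟨h1, h2, h3⟩ := hne
  have h4 : ({x, b, c, d} : Finset V) ⊆ S.filter fun w => H.Adj a w := by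
    intro y hy
    simp only [mem_insert, mem_singleton] at hy
    rw [mem_filter]
    rcases hy with rfl | rfl | rfl | rfl
    · exact ⟨hx, hadj⟩
    · exact ⟨hb, hab⟩
    · exact ⟨hc, hac⟩
    · exact ⟨hd, had⟩
  have h5 := card_le_card h4
  have h6 : #({x, b, c, d} : Finset V) = 4 := by
    rw [card_insert_of_notMem, card_insert_of_notMem, card_pair hcd]
    · simp only [mem_insert, mem_singleton, not_or]
      exact ⟨hbc, hbd⟩
    · simp only [mem_insert, mem_singleton, not_or]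
      exact ⟨h1, h2, h3⟩
  unfold dg at h
  omega

/-- Proof. `Ub.edge` with `u = b`, `v = a`. In `ctr H b a` on `S.erase a` the neighbours of `b` are
`c` and `d` (the common neighbours), so `b, c, d` are a component `K_3` (`Ub.k3`): `aa * p`.
In `del H b a` on `S` the vertex `a` has the two neighbours `c`, `d`: `Ub.three` (with `v = a`,
`u = c`, `w = d`; without `a` the graph is `H`, `Ub.congr`): `S.erase a`: component `K_3`: `aa * p`;
`(S.erase a).erase d`: `b, c` a component `K_2`: `bb * p`; `(S.erase a).erase c`: `b, d`: `bb * p`;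
`((S.erase a).erase c).erase d`: `b` isolated: `p`. Total
`aa * p + X * (bb * p) + X * (bb * p + X * p) + X * (aa * p) = kk * p`. -/
theorem Ub.k4 {H : SimpleGraph V} {S : Finset V} {p : ℕ[X]} {a b c d : V} (h : IsK H S a b c d)
    (hp : Ub H ((((S.erase a).erase b).erase c).erase d) p) : Ub H S (kk * p) := by
  obtain ⟨ha, hb, hc, hd, hab, hac, had, hbc, hbd, hcd, da, db, dc, dd'⟩ := h
  have na := A2_nb hb hc hd hab hac had hbc.ne hbd.ne hcd.ne da
  have nb := A2_nb ha hc hd hab.symm hbc hbd hac.ne had.ne hcd.ne db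
  have nc := A2_nb ha hb hd hac.symm hbc.symm hcd hab.ne had.ne hbd.ne dc
  have nd := A2_nb ha hb hc had.symm hbd.symm hcd.symm hab.ne hac.ne hbc.ne dd'
  have hb' : b ∈ S.erase a := mem_erase.2 ⟨hab.ne.symm, hb⟩
  have hc' : c ∈ S.erase a := mem_erase.2 ⟨hac.ne.symm, hc⟩
  have hd' : d ∈ S.erase a := mem_erase.2 ⟨had.ne.symm, hd⟩
  -- the contracted graph
  have hctr : Ub (ctr H b a) (S.erase a) (aa * p) := by
    refine Ub.k3 (v := b) (u := c) (w := d) hc' hb' hd' ⟨hbc, fun _ => hac, fun h => (hbc.ne h.symm).elim⟩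
      ⟨hbd, fun _ => had, fun h => (hbd.ne h.symm).elim⟩
      ⟨hcd, fun h => (hbc.ne h.symm).elim, fun h => (hbd.ne h.symm).elim⟩ ?_ ?_ ?_ ?_
    · intro x hx hadj
      obtain ⟨hx1, hx2⟩ := mem_erase.1 hx
      exact (nb x hx2 hadj.1).resolve_left hx1
    · intro x hx hadj
      obtain ⟨hx1, hx2⟩ := mem_erase.1 hx
      exact (nc x hx2 hadj.1).resolve_left hx1
    · intro x hx hadj
      obtain ⟨hx1, hx2⟩ := mem_erase.1 hx
      exact (nd x hx2 hadj.1).resolve_left hx1
    · refine Ub.congr ?_ hp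
      intro x hx y hy
      have hxb : x ≠ b := (mem_erase.1 (mem_erase.1 (mem_erase.1 hx).2).2).1
      have hyb : y ≠ b := (mem_erase.1 (mem_erase.1 (mem_erase.1 hy).2).2).1
      exact ⟨fun h => ⟨h, fun h' => (hxb h').elim, fun h' => (hyb h').elim⟩, fun h => h.1⟩
  -- the graph without the edge
  have hin : ∀ x y : V, x ≠ a → y ≠ a → (H.Adj x y ↔ (del H b a).Adj x y) := fun x y hx hy =>
    ⟨fun h => ⟨h, fun h' => hy h'.2, fun h' => hx h'.1⟩, fun h => h.1⟩
  have hpd : Ub (del H b a) ((((S.erase a).erase b).erase c).erase d) p := by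
    refine Ub.congr ?_ hp
    intro x hx y hy
    have hxa : x ≠ a := (mem_erase.1 (mem_erase.1 (mem_erase.1 (mem_erase.1 hx).2).2).2).1
    have hya : y ≠ a := (mem_erase.1 (mem_erase.1 (mem_erase.1 (mem_erase.1 hy).2).2).2).1
    exact hin x y hxa hya
  have dbc : (del H b a).Adj b c := (hin b c hab.ne.symm hac.ne.symm).1 hbc
  have dbd : (del H b a).Adj b d := (hin b d hab.ne.symm had.ne.symm).1 hbd
  have dcd : (del H b a).Adj c d := (hin c d hac.ne.symm had.ne.symm).1 hcd
  have dac : (del H b a).Adj a c := ⟨hac, fun h => hab.ne h.1, fun h => hbc.ne h.2.symm⟩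
  have dad : (del H b a).Adj a d := ⟨had, fun h => hab.ne h.1, fun h => hbd.ne h.2.symm⟩
  have b1 : Ub (del H b a) (S.erase a) (aa * p) := by
    refine Ub.k3 (v := b) (u := c) (w := d) hc' hb' hd' dbc dbd dcd ?_ ?_ ?_ hpd
    · intro x hx hadj
      obtain ⟨hx1, hx2⟩ := mem_erase.1 hx
      exact (nb x hx2 hadj.1).resolve_left hx1
    · intro x hx hadj
      obtain ⟨hx1, hx2⟩ := mem_erase.1 hx
      exact (nc x hx2 hadj.1).resolve_left hx1
    · intro x hx hadj
      obtain ⟨hx1, hx2⟩ := mem_erase.1 hx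
      exact (nd x hx2 hadj.1).resolve_left hx1
  have b2 : Ub (del H b a) ((S.erase a).erase d) (bb * p) := by
    refine Ub.k2 (v := b) (u := c) (mem_erase.2 ⟨hcd.ne, hc'⟩) (mem_erase.2 ⟨hbd.ne, hb'⟩) dbc
      ?_ ?_ ?_
    · intro x hx hadj
      obtain ⟨hx1, hx2⟩ := mem_erase.1 hx
      obtain ⟨hx3, hx4⟩ := mem_erase.1 hx2
      rcases nb x hx4 hadj.1 with h | h | h
      · exact (hx3 h).elim
      · exact h
      · exact (hx1 h).elim
    · intro x hx hadj
      obtain ⟨hx1, hx2⟩ := mem_erase.1 hx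
      obtain ⟨hx3, hx4⟩ := mem_erase.1 hx2
      rcases nc x hx4 hadj.1 with h | h | h
      · exact (hx3 h).elim
      · exact h
      · exact (hx1 h).elim
    · have e : (((S.erase a).erase d).erase b).erase c =
          (((S.erase a).erase b).erase c).erase d := by
        ext x
        simp only [mem_erase]
        tauto
      rw [e]
      exact hpd
  have b3 : Ub (del H b a) ((S.erase a).erase c) (bb * p) := by
    refine Ub.k2 (v := b) (u := d) (mem_erase.2 ⟨hcd.ne.symm, hd'⟩) (mem_erase.2 ⟨hbc.ne, hb'⟩) dbd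
      ?_ ?_ ?_
    · intro x hx hadj
      obtain ⟨hx1, hx2⟩ := mem_erase.1 hx
      obtain ⟨hx3, hx4⟩ := mem_erase.1 hx2
      rcases nb x hx4 hadj.1 with h | h | h
      · exact (hx3 h).elim
      · exact (hx1 h).elim
      · exact h
    · intro x hx hadj
      obtain ⟨hx1, hx2⟩ := mem_erase.1 hx
      obtain ⟨hx3, hx4⟩ := mem_erase.1 hx2
      rcases nd x hx4 hadj.1 with h | h | h
      · exact (hx3 h).elim
      · exact h
      · exact (hx1 h).elim
    · have e : (((S.erase a).erase c).erase b).erase d =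
          (((S.erase a).erase b).erase c).erase d := by
        ext x
        simp only [mem_erase]
        tauto
      rw [e]
      exact hpd
  have b4 : Ub (del H b a) (((S.erase a).erase c).erase d) p := by
    refine Ub.iso (v := b) (mem_erase.2 ⟨hbd.ne, mem_erase.2 ⟨hbc.ne, hb'⟩⟩) ?_ ?_
    · intro x hx hadj
      obtain ⟨hx1, hx2⟩ := mem_erase.1 hx
      obtain ⟨hx3, hx4⟩ := mem_erase.1 hx2
      obtain ⟨hx5, hx6⟩ := mem_erase.1 hx4
      rcases nb x hx6 hadj.1 with h | h | h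
      · exact hx5 h
      · exact hx3 h
      · exact hx1 h
    · have e : (((S.erase a).erase c).erase d).erase b =
          (((S.erase a).erase b).erase c).erase d := by
        ext x
        simp only [mem_erase]
        tauto
      rw [e]
      exact hpd
  have hdel : Ub (del H b a) S (aa * p + X * (bb * p) + X * (bb * p + X * p)) := by
    refine Ub.three (v := a) (u := c) (w := d) hc ha hd dac dad dcd ?_ b1 b2 b3 b4
    intro x hx hadj
    rcases na x hx hadj.1 with h | h | h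
    · exact (hadj.2.2 ⟨rfl, h⟩).elim
    · exact Or.inl h
    · exact Or.inr h
  have hfin := Ub.edge hb ha hab.symm hdel hctr
  have e : kk * p = aa * p + X * (bb * p) + X * (bb * p + X * p) + X * (aa * p) := by
    rw [kk, aa, bb]
    ring
  rw [e]
  exact hfin

end Pool.Agent.Lib.H20WE
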