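import Pool.Agent.Lib.H20WE.Defs

/-! # A3: components `K_4` -/

set_option autoImplicit false

namespace Pool.Agent.Lib.H20WE

open Finset Polynomial Pool.Agent.Lib.H20WD
open scoped Classical

variable {V : Type}

theorem InK.mem {H : SimpleGraph V} {S : Finset V} {a : V} (h : InK H S a) : a ∈ S := by
  obtain ⟨b, c, d, h⟩ := h
  exact h.1

theorem InK.dg {H : SimpleGraph V} {S : Finset V} {a : V} (h : InK H S a) : dg H S a = 3 := by
  obtain ⟨b, c, d, h⟩ := h
  exact h.2.2.2.2.2.2.2.2.2.2.1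

/-- Proof. `{b, c, d}` is contained in the set of neighbours of `a`, which has three elements
(`eq_of_subset_of_card_le`), so `y` is one of `b, c, d`; permute. -/
theorem InK.adj {H : SimpleGraph V} {S : Finset V} {a y : V} (h : InK H S a) (hy : y ∈ S)
    (hay : H.Adj a y) : InK H S y := by
  obtain ⟨b, c, d, ha, hb, hc, hd, hab, hac, had, hbc, hbd, hcd, da, db, dc, de⟩ := h
  have key : ({b, c, d} : Finset V) = S.filter fun w => H.Adj a w := by
    refine eq_of_subset_of_card_le ?_ ?_
    · intro w hw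
      simp only [mem_insert, mem_singleton] at hw
      rcases hw with rfl | rfl | rfl
      · exact mem_filter.2 ⟨hb, hab⟩
      · exact mem_filter.2 ⟨hc, hac⟩
      · exact mem_filter.2 ⟨hd, had⟩
    · rw [card_eq_three.2 ⟨b, c, d, hbc.ne, hbd.ne, hcd.ne, rfl⟩]
      exact da.le
  have hy' : y ∈ ({b, c, d} : Finset V) := by
    rw [key]
    exact mem_filter.2 ⟨hy, hay⟩
  simp only [mem_insert, mem_singleton] at hy'
  rcases hy' with rfl | rfl | rfl
  · exact ⟨a, c, d, hy, ha, hc, hd, hab.symm, hbc, hbd, hac, had, hcd, db, da, dc, de⟩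
  · exact ⟨a, b, d, hy, ha, hb, hd, hac.symm, hbc.symm, hcd, hab, had, hbd, dc, da, db, de⟩
  · exact ⟨a, b, c, hy, ha, hb, hc, had.symm, hbd.symm, hcd.symm, hab, hac, hbc, de, da, db, dc⟩

/-- Proof. `IsK H (S.erase v) a b c d`. If `v` is not adjacent to any of `a, b, c, d` then their
degrees in `S` are those in `S.erase v`, so `InK H S a`, a contradiction. So `v` is adjacent to one
of them, which is in a component `K_4` (`InK.adj`). -/
theorem exists_adj_of_inK {H : SimpleGraph V} {S : Finset V} {v a : V} (hN : NoK H S)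
    (h : InK H (S.erase v) a) : ∃ y, InK H (S.erase v) y ∧ H.Adj v y := by
  by_contra hne
  push Not at hne
  have hdg : ∀ y, InK H (S.erase v) y → dg H S y = 3 := by
    intro y hy
    rw [← hy.dg]
    unfold Pool.Agent.Lib.H20WD.dg
    rw [filter_erase, erase_eq_of_notMem]
    intro hv
    exact hne y hy (mem_filter.1 hv).2.symm
  have ha := h
  obtain ⟨b, c, d, h1⟩ := h
  have hb : InK H (S.erase v) b := ha.adj h1.2.1 h1.2.2.2.2.1
  have hc : InK H (S.erase v) c := ha.adj h1.2.2.1 h1.2.2.2.2.2.1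
  have hd : InK H (S.erase v) d := ha.adj h1.2.2.2.1 h1.2.2.2.2.2.2.1
  obtain ⟨ma, mb, mc, md, hab, hac, had, hbc, hbd, hcd, _⟩ := h1
  exact hN a ⟨b, c, d, (mem_erase.1 ma).2, (mem_erase.1 mb).2, (mem_erase.1 mc).2,
    (mem_erase.1 md).2, hab, hac, had, hbc, hbd, hcd, hdg a ha, hdg b hb, hdg c hc, hdg d hd⟩

theorem noK_erase {H : SimpleGraph V} {S : Finset V} {v : V} (hN : NoK H S)
    (h : ∀ y, H.Adj v y → ¬ InK H (S.erase v) y) : NoK H (S.erase v) := by
  intro a ha
  obtain ⟨y, hy, hvy⟩ := exists_adj_of_inK hN ha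
  exact h y hvy hy

/-- Proof. Six edges, no edge to the rest: `ec_erase` and `dg_erase` four times (the degree of `a` is
`3`, that of `b` in `S.erase a` is `2`, and so on); `card_erase_of_mem`. -/
theorem IsK.card {H : SimpleGraph V} {S : Finset V} {a b c d : V} (h : IsK H S a b c d) :
    #((((S.erase a).erase b).erase c).erase d) + 4 = #S ∧
      ec H ((((S.erase a).erase b).erase c).erase d) + 6 = ec H S := by
  obtain ⟨ha, hb, hc, hd, hab, hac, had, hbc, hbd, hcd, da, db, dc, de⟩ := h
  have b1 : b ∈ S.erase a := mem_erase.2 ⟨hab.ne', hb⟩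
  have c1 : c ∈ S.erase a := mem_erase.2 ⟨hac.ne', hc⟩
  have d1 : d ∈ S.erase a := mem_erase.2 ⟨had.ne', hd⟩
  have c2 : c ∈ (S.erase a).erase b := mem_erase.2 ⟨hbc.ne', c1⟩
  have d2 : d ∈ (S.erase a).erase b := mem_erase.2 ⟨hbd.ne', d1⟩
  have d3 : d ∈ ((S.erase a).erase b).erase c := mem_erase.2 ⟨hcd.ne', d2⟩
  have e1 := ec_erase H ha
  have e2 := ec_erase H b1
  have e3 := ec_erase H c2
  have e4 := ec_erase H d3
  have f1 := dg_erase H ha hab.symm
  have f2 := dg_erase H ha hac.symm
  have f3 := dg_erase H ha had.symm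
  have f4 := dg_erase H b1 hbc.symm
  have f5 := dg_erase H b1 hbd.symm
  have f6 := dg_erase H c2 hcd.symm
  have g1 := card_erase_add_one ha
  have g2 := card_erase_add_one b1
  have g3 := card_erase_add_one c2
  have g4 := card_erase_add_one d3
  constructor <;> omega

end Pool.Agent.Lib.H20WE
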