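import Pool.Agent.Lib.H20WE.A3

/-! # A5: moving an edge without making a component `K_4` -/

set_option autoImplicit false

namespace Pool.Agent.Lib.H20WE

open Finset Polynomial Pool.Agent.Lib.H20WD
open scoped Classical

variable {V : Type}

/-- Adjacency away from the three vertices does not change. -/
private theorem A5_adj {H : SimpleGraph V} {u v w s t : V} (hu : s ≠ u) (hv : s ≠ v) (hw : s ≠ w) :
    (add (del H u v) u w).Adj s t ↔ H.Adj s t := by
  constructor
  · rintro (h | ⟨-, h | h⟩)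
    · exact h.1
    · exact absurd h.1 hu
    · exact absurd h.1 hw
  · intro h
    exact Or.inl ⟨h, fun h' => hu h'.1, fun h' => hv h'.1⟩

private theorem A5_dg {H : SimpleGraph V} {S : Finset V} {u v w s : V} (hu : s ≠ u) (hv : s ≠ v)
    (hw : s ≠ w) : dg (add (del H u v) u w) S s = dg H S s := by
  unfold dg
  congr 1
  exact Finset.filter_congr fun t _ => A5_adj hu hv hw

private theorem A5_transfer {H : SimpleGraph V} {S : Finset V} {u v w : V} (hN : NoK H S)
    (hu : ¬ InK (add (del H u v) u w) S u) (hv : ¬ InK (add (del H u v) u w) S v)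
    (hw : ¬ InK (add (del H u v) u w) S w) : NoK (add (del H u v) u w) S := by
  rintro a ⟨b, c, d, ha, hb, hc, hd, hab, hac, had, hbc, hbd, hcd, da, db, dc, dd'⟩
  have Ka : InK (add (del H u v) u w) S a :=
    ⟨b, c, d, ha, hb, hc, hd, hab, hac, had, hbc, hbd, hcd, da, db, dc, dd'⟩
  have Kb := Ka.adj hb hab
  have Kc := Ka.adj hc hac
  have Kd := Ka.adj hd had
  have key : ∀ x, InK (add (del H u v) u w) S x → x ≠ u ∧ x ≠ v ∧ x ≠ w := by
    intro x hx
    refine ⟨?_, ?_, ?_⟩
    · rintro rfl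
      exact hu hx
    · rintro rfl
      exact hv hx
    · rintro rfl
      exact hw hx
  obtain ⟨a1, a2, a3⟩ := key a Ka
  obtain ⟨b1, b2, b3⟩ := key b Kb
  obtain ⟨c1, c2, c3⟩ := key c Kc
  obtain ⟨d1, d2, d3⟩ := key d Kd
  refine hN a ⟨b, c, d, ha, hb, hc, hd, (A5_adj a1 a2 a3).1 hab, (A5_adj a1 a2 a3).1 hac,
    (A5_adj a1 a2 a3).1 had, (A5_adj b1 b2 b3).1 hbc, (A5_adj b1 b2 b3).1 hbd,
    (A5_adj c1 c2 c3).1 hcd, ?_, ?_, ?_, ?_⟩
  · rw [← A5_dg a1 a2 a3]; exact da
  · rw [← A5_dg b1 b2 b3]; exact db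
  · rw [← A5_dg c1 c2 c3]; exact dc
  · rw [← A5_dg d1 d2 d3]; exact dd'

private theorem A5_w {H : SimpleGraph V} {S : Finset V} {u v w : V}
    (h : ∀ x ∈ S, ¬ H.Adj w x) : ¬ InK (add (del H u v) u w) S w := by
  rintro ⟨b, c, d, ha, hb, hc, hd, hab, hac, had, hbc, hbd, hcd, -⟩
  have key : ∀ t ∈ S, (add (del H u v) u w).Adj w t → t = u := by
    rintro t ht (h1 | ⟨h0, h1 | h1⟩)
    · exact absurd h1.1 (h t ht)
    · exact absurd h1.2.symm h0
    · exact h1.2
  have e1 := key b hb hab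
  have e2 := key c hc hac
  exact hbc.ne (e1.trans e2.symm)

private theorem A5_u {H : SimpleGraph V} {S : Finset V} {u v w : V} (hw : w ∈ S) (hne : u ≠ w)
    (h : ¬ InK (add (del H u v) u w) S w) : ¬ InK (add (del H u v) u w) S u := fun hu =>
  h (hu.adj hw (Or.inr ⟨hne, Or.inl ⟨rfl, rfl⟩⟩))

/-- Proof. Take a neighbour `u ∈ S` of `v`, and `H' = add (del H u v) u w`. If `NoK H' S` we are done.
Otherwise `InK H' S x` for some `x`; in `H'` the vertex `w` has degree one, so the component `K` of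
`x` does not contain `w`, nor `u` (which is adjacent to `w` in `H'`); it contains `v`, otherwise it
is a component `K_4` of `H` (edges and degrees at the vertices of `K` are the same). So `v` and three
other vertices `v', y, z` are pairwise adjacent in `H'`, hence in `H`, and `v', y, z` have degree
three in `H'` and in `H`. Use the pair `(v, v')` in place of `(u, v)`: `H'' = add (del H v v') v w`
(`2 ≤ dg H S v'`). If `InK H'' S x''` with component `K''`: `w` is not in `K''` (its degree is one in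
`H''`), so `v` is not in `K''` (`InK.adj`), so `y, z` are not in `K''` (they are adjacent to `v` in
`H''`), so `v'` is not in `K''` (it is adjacent to `y` in `H''`). So `K''` is a component `K_4` of
`H`, a contradiction. -/
theorem exists_swap {H : SimpleGraph V} {S : Finset V} {v w : V} (hv : v ∈ S) (hw : w ∈ S)
    (h : ∀ x ∈ S, ¬ H.Adj w x) (hd : 2 ≤ dg H S v) (hN : NoK H S) :
    ∃ u ∈ S, ∃ v' ∈ S, H.Adj u v' ∧ 2 ≤ dg H S v' ∧ NoK (add (del H u v') u w) S := by
  have hex : ∃ u ∈ S, H.Adj v u := by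
    have h1 : 0 < #(S.filter fun x => H.Adj v x) := by
      have h2 : dg H S v = #(S.filter fun x => H.Adj v x) := rfl
      omega
    obtain ⟨u, hu⟩ := Finset.card_pos.1 h1
    exact ⟨u, (Finset.mem_filter.1 hu).1, (Finset.mem_filter.1 hu).2⟩
  obtain ⟨u, huS, hvu⟩ := hex
  have huw : u ≠ w := by
    rintro rfl
    exact h v hv hvu.symm
  have hvw : v ≠ w := by
    rintro rfl
    exact h u huS hvu
  by_cases hcase : NoK (add (del H u v) u w) S
  · exact ⟨u, huS, v, hv, hvu.symm, hd, hcase⟩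
  · have Kw := A5_w (u := u) (v := v) h
    have Ku := A5_u (v := v) hw huw Kw
    have Kv : InK (add (del H u v) u w) S v := by
      by_contra Kv
      exact hcase (A5_transfer hN Ku Kv Kw)
    obtain ⟨v', y, z, -, hv'S, hyS, hzS, hvv', hvy, hvz, hv'y, hv'z, hyz, dv, dv', dy, dz⟩ := Kv
    have Kv : InK (add (del H u v) u w) S v :=
      ⟨v', y, z, hv, hv'S, hyS, hzS, hvv', hvy, hvz, hv'y, hv'z, hyz, dv, dv', dy, dz⟩
    have Kv' := Kv.adj hv'S hvv'
    have Ky := Kv.adj hyS hvy
    have hv'u : v' ≠ u := by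
      rintro rfl
      exact Ku Kv'
    have hv'w : v' ≠ w := by
      rintro rfl
      exact Kw Kv'
    have hyu : y ≠ u := by
      rintro rfl
      exact Ku Ky
    have hyw : y ≠ w := by
      rintro rfl
      exact Kw Ky
    have hv'v : v' ≠ v := hvv'.ne.symm
    have hyv : y ≠ v := hvy.ne.symm
    have hyv' : y ≠ v' := hv'y.ne.symm
    have e1 : H.Adj v' v := (A5_adj hv'u hv'v hv'w).1 hvv'.symm
    have e2 : H.Adj y v := (A5_adj hyu hyv hyw).1 hvy.symm
    have e3 : H.Adj v' y := (A5_adj hv'u hv'v hv'w).1 hv'y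
    have e4 : dg H S v' = 3 := by
      rw [← A5_dg hv'u hv'v hv'w]
      exact dv'
    refine ⟨v, hv, v', hv'S, e1.symm, by omega, ?_⟩
    have Lw := A5_w (u := v) (v := v') h
    have Lv := A5_u (v := v') hw hvw Lw
    have Ly : ¬ InK (add (del H v v') v w) S y := fun hy =>
      Lv (hy.adj hv (Or.inl ⟨e2, fun h' => hyv h'.1, fun h' => hyv' h'.1⟩))
    have Lv' : ¬ InK (add (del H v v') v w) S v' := fun hy =>
      Ly (hy.adj hyS (Or.inl ⟨e3, fun h' => hv'v h'.1, fun h' => hyv h'.2⟩))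
    exact A5_transfer hN Lv Lv' Lw

end Pool.Agent.Lib.H20WE
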