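import Pool.Agent.Lib.H20WE.Defs

/-! # B2: monotonicity -/

set_option autoImplicit false

namespace Pool.Agent.Lib.H20WE

open Finset Polynomial Pool.Agent.Lib.H20WD
open scoped Classical

private theorem B2_step {n k : ℕ} (hk : k + 1 < n) : Le (UU n k) (PP n (k + 1)) := by
  by_cases h : 2 * k + 1 - n < 9 ∨ (2 * k + 1 - n) % 3 ≠ 0
  · rw [UU_eq h]
    exact PP_mono (Nat.le_succ k) hk
  · rw [not_or, not_lt, not_not] at h
    obtain ⟨t, ht⟩ : ∃ t, 2 * k + 1 = n + (3 * t + 9) := ⟨(2 * k + 1 - n - 9) / 3, by omega⟩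
    obtain ⟨a, ha⟩ : ∃ a, n - 1 - k = a + 1 := ⟨n - 1 - k - 1, by omega⟩
    have e1 : gg (3 * t + 9) = aa ^ (t + 3) := gg_c0 (t + 3)
    rw [UU_cl ht (by omega), PP_cl (j := 3 * (t + 3) + 2) (by omega) hk, gg_c2, e1, dd_c,
      ha, show n - 1 - (k + 1) = a by omega]
    refine ⟨bb ^ a * aa ^ t *
      (X + 9 * X ^ 2 + 30 * X ^ 3 + 45 * X ^ 4 + 29 * X ^ 5 + 8 * X ^ 6 + X ^ 7), ?_⟩
    rw [pow_succ bb a, pow_add aa t 3]
    generalize bb ^ a = u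
    generalize aa ^ t = w
    unfold aa bb
    ring

/-- Proof. `k' = k + 1` is enough (then `PP_mono` from `k + 1` to `k'`). If `UU n k = PP n k`
(`UU_eq`): `PP_mono`. Otherwise `2 k + 1 = n + (3 t + 9)`, `a = n - 1 - k ≥ 1`; `UU_cl`, `PP_cl`,
`gg_c0`, `dd_c`, `gg_c2`: `UU n k = bb ^ a * (aa ^ (t + 3) + X ^ 5 * aa ^ t)`,
`PP n (k + 1) = bb ^ (a - 1) * aa ^ (t + 3) * (1 + 2 X)`; the difference is `bb ^ (a - 1) * aa ^ t`
times `X + 9 X^2 + 30 X^3 + 45 X^4 + 29 X^5 + 8 X^6 + X^7`. -/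
theorem UU_lt {n k k' : ℕ} (h : k < k') (hk : k' < n) : Le (UU n k) (PP n k') :=
  (B2_step (by omega)).trans (PP_mono h hk)

/-- Proof. `k = k'`, or `UU_lt` and `PP_le_UU`. -/
theorem UU_mono {n k k' : ℕ} (h : k ≤ k') (hk : k' < n) : Le (UU n k) (UU n k') := by
  rcases h.eq_or_lt with rfl | h
  · exact Le.refl _
  · exact (UU_lt h hk).trans (PP_le_UU n k')

end Pool.Agent.Lib.H20WE
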