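import Pool.Agent.Lib.H20WE.A1
import Pool.Agent.Lib.H20WE.B2

/-! # A6: removing the edges at a vertex -/

set_option autoImplicit false

namespace Pool.Agent.Lib.H20WE

open Finset Polynomial Pool.Agent.Lib.H20WD
open scoped Classical

variable {V : Type}

/-- Proof. As `peel` in the file `H20WD.E1` (copy it), with `Ub.iso`, `Ub.edge` and `UU_mono`. -/
theorem peelU {n : ℕ} (hB : BdU V n) (d j : ℕ) : ∀ (H : SimpleGraph V) (S : Finset V) (v : V),
    v ∈ S → #S = n + 1 → dg H S v = j → j ≤ d → (∀ u ∈ S, H.Adj v u → d ≤ dg H S u) →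
    ec H S < n + j → Ub H S (UU n (ec H S - j) +
      X * ∑ i ∈ range j, UU n (ec H S - d - i)) := by
  induction j with
  | zero =>
    intro H S v hv hS hdv _ _ hec
    have hiso : ∀ w ∈ S, ¬ H.Adj v w := by
      intro w hw hadj
      unfold dg at hdv
      rw [card_eq_zero, filter_eq_empty_iff] at hdv
      exact hdv hw hadj
    have hc : #(S.erase v) = n := by rw [card_erase_of_mem hv, hS]; rfl
    have he := ec_erase H hv
    rw [hdv, add_zero] at he
    rw [sum_range_zero, mul_zero, add_zero, Nat.sub_zero]
    have hp := hB H (S.erase v) hc (by omega)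
    rw [he] at hp
    exact Ub.iso hv hiso hp
  | succ j ih =>
    intro H S v hv hS hdv hjd hnb hec
    obtain ⟨u, hu⟩ : (S.filter fun w => H.Adj v w).Nonempty := by
      rw [← card_pos]
      unfold dg at hdv
      omega
    obtain ⟨huS, hvu⟩ := mem_filter.1 hu
    have huv : H.Adj u v := hvu.symm
    have hd1 := dg_del' H huS huv
    have he1 := ec_del H huS hv huv
    have hIH := ih (del H u v) S v hv hS (by omega) (by omega) (by
      intro x hx hadj
      have hxu : x ≠ u := fun h => hadj.2.2 ⟨rfl, h⟩
      have hxv : x ≠ v := fun h => (del H u v).ne_of_adj hadj h.symm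
      rw [dg_del_ne H hxu hxv]
      exact hnb x hx hadj.1) (by omega)
    have hc : #(S.erase v) = n := by rw [card_erase_of_mem hv, hS]; rfl
    have he2 := ec_ctr H huS hv huv
    have hcom : #(S.filter fun w => H.Adj u w ∧ H.Adj v w) ≤ j := by
      have h1 : (S.filter fun w => H.Adj u w ∧ H.Adj v w) ⊆ (S.filter fun w => H.Adj v w).erase u := by
        intro w hw
        obtain ⟨hw1, hw2, hw3⟩ := mem_filter.1 hw
        refine mem_erase.2 ⟨fun h => ?_, mem_filter.2 ⟨hw1, hw3⟩⟩
        rw [h] at hw2
        exact H.loopless.irrefl u hw2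
      have h2 := card_le_card h1
      rw [card_erase_of_mem hu] at h2
      unfold dg at hdv
      omega
    have hdu := hnb u huS hvu
    have hBc := hB (ctr H u v) (S.erase v) hc (by omega)
    have hmono : Le (UU n (ec (ctr H u v) (S.erase v))) (UU n (ec H S - d)) :=
      UU_mono (by omega) (by omega)
    have hres := Ub.edge huS hv huv hIH (hBc.mono hmono)
    rw [show ec (del H u v) S - j = ec H S - (j + 1) by omega] at hres
    have hsum : ∑ i ∈ range j, UU n (ec (del H u v) S - d - i) =
        ∑ i ∈ range j, UU n (ec H S - d - (i + 1)) := by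
      refine sum_congr rfl fun i _ => ?_
      rw [show ec (del H u v) S - d - i = ec H S - d - (i + 1) by omega]
    rw [hsum] at hres
    rw [sum_range_succ', Nat.sub_zero, mul_add, ← add_assoc]
    exact hres

end Pool.Agent.Lib.H20WE
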