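import Pool.Agent.Lib.H20WE.A6

/-! # A7: a vertex of degree three -/

set_option autoImplicit false

namespace Pool.Agent.Lib.H20WE

open Finset Polynomial Pool.Agent.Lib.H20WD
open scoped Classical

variable {V : Type}

private theorem A7_common {H : SimpleGraph V} {S : Finset V} {u v : V} (_hu : u ∈ S)
    (_hvu : H.Adj v u) : (S.filter fun w => H.Adj u w ∧ H.Adj v w) ⊆
      (S.filter fun w => H.Adj v w).erase u := by
  intro w hw
  obtain ⟨hw1, hw2, hw3⟩ := mem_filter.1 hw
  refine mem_erase.2 ⟨fun h => ?_, mem_filter.2 ⟨hw1, hw3⟩⟩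
  rw [h] at hw2
  exact H.loopless.irrefl u hw2

private theorem A7_card {H : SimpleGraph V} {S : Finset V} {u v : V} (hu : u ∈ S)
    (hvu : H.Adj v u) (hd : dg H S v = 3) : #((S.filter fun w => H.Adj v w).erase u) = 2 := by
  have hd' : #(S.filter fun w => H.Adj v w) = 3 := hd
  rw [card_erase_of_mem (mem_filter.2 ⟨hu, hvu⟩), hd']

private theorem A7_key {H : SimpleGraph V} {S : Finset V} {v : V} (hv : v ∈ S)
    (hd : dg H S v = 3) (h : ∀ u ∈ S, H.Adj v u → 3 ≤ dg H S u) (hN : ¬ InK H S v) :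
    ∃ u ∈ S, H.Adj v u ∧ (4 ≤ dg H S u ∨ #(S.filter fun w => H.Adj u w ∧ H.Adj v w) ≤ 1) := by
  by_contra hcon
  push Not at hcon
  have hall : ∀ u ∈ S, H.Adj v u → dg H S u = 3 ∧ ∀ w ∈ S, H.Adj v w → w ≠ u → H.Adj u w := by
    intro u hu hvu
    obtain ⟨h1, h2⟩ := hcon u hu hvu
    have h3 := h u hu hvu
    refine ⟨by omega, fun w hw hvw hwu => ?_⟩
    have h4 := eq_of_subset_of_card_le (A7_common hu hvu) (by
      rw [A7_card hu hvu hd]
      omega)
    have h5 : w ∈ (S.filter fun w => H.Adj v w).erase u :=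
      mem_erase.2 ⟨hwu, mem_filter.2 ⟨hw, hvw⟩⟩
    rw [← h4] at h5
    exact (mem_filter.1 h5).2.1
  have hd' : #(S.filter fun w => H.Adj v w) = 3 := hd
  obtain ⟨b, c, d, hbc, hbd, hcd, hS⟩ := card_eq_three.1 hd'
  have hb : b ∈ S ∧ H.Adj v b := mem_filter.1 (by rw [hS]; simp)
  have hc : c ∈ S ∧ H.Adj v c := mem_filter.1 (by rw [hS]; simp)
  have hdd : d ∈ S ∧ H.Adj v d := mem_filter.1 (by rw [hS]; simp)
  obtain ⟨b1, b2⟩ := hall b hb.1 hb.2
  obtain ⟨c1, c2⟩ := hall c hc.1 hc.2
  obtain ⟨d1, d2⟩ := hall d hdd.1 hdd.2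
  exact hN ⟨b, c, d, hv, hb.1, hc.1, hdd.1, hb.2, hc.2, hdd.2, b2 c hc.1 hc.2 hbc.symm,
    b2 d hdd.1 hdd.2 hbd.symm, c2 d hdd.1 hdd.2 hcd.symm, hd, b1, c1, d1⟩

/-- Proof. There is a neighbour `u ∈ S` of `v` with `4 ≤ dg H S u` or with at most one common neighbour
with `v` in `S`: otherwise the three neighbours `b, c, d` of `v` (`card_eq_three`) have degree three
and each of them has two common neighbours with `v`, which are the two others, so `IsK H S v b c d`.
`Ub.edge` for this edge `uv`: by `ec_ctr` the graph `ctr H u v` has at most `ec H S - 4` edges in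
`S.erase v` (`#common ≤ 2`, and `≤ 1` in the second case): `hB` and `UU_mono`. For `del H u v` (one
edge less, the degree of `v` is two, the other neighbours keep their degrees: `ec_del`, `dg_del'`,
`dg_del_ne`): `peelU` with `d = 3`, `j = 2`: `UU n (k - 3) + X * (UU n (k - 4) + UU n (k - 5))`. -/
theorem peel_three {n : ℕ} (hB : BdU V n) {H : SimpleGraph V} {S : Finset V} {v : V} (hv : v ∈ S)
    (hS : #S = n + 1) (hk : ec H S < n + 1) (hd : dg H S v = 3)
    (h : ∀ u ∈ S, H.Adj v u → 3 ≤ dg H S u) (hN : ¬ InK H S v) :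
    Ub H S (UU n (ec H S - 3) + X * (2 * UU n (ec H S - 4) + UU n (ec H S - 5))) := by
  obtain ⟨u, hu, hvu, hcase⟩ := A7_key hv hd h hN
  have huv : H.Adj u v := hvu.symm
  have hc : #(S.erase v) = n := by rw [card_erase_of_mem hv, hS]; rfl
  have hd1 := dg_del' H hu huv
  have he1 := ec_del H hu hv huv
  have he2 := ec_ctr H hu hv huv
  have hcom : #(S.filter fun w => H.Adj u w ∧ H.Adj v w) ≤ 2 := by
    have h1 := card_le_card (A7_common hu hvu)
    rw [A7_card hu hvu hd] at h1
    exact h1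
  have hdu := h u hu hvu
  have hle : ec (ctr H u v) (S.erase v) + 4 ≤ ec H S := by
    rcases hcase with h4 | h4 <;> omega
  have hBc := hB (ctr H u v) (S.erase v) hc (by omega)
  have hmono : Le (UU n (ec (ctr H u v) (S.erase v))) (UU n (ec H S - 4)) :=
    UU_mono (by omega) (by omega)
  have hdel := peelU hB 3 2 (del H u v) S v hv hS (by omega) (by omega) (by
    intro x hx hadj
    have hxu : x ≠ u := fun h => hadj.2.2 ⟨rfl, h⟩
    have hxv : x ≠ v := fun h => (del H u v).ne_of_adj hadj h.symm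
    rw [dg_del_ne H hxu hxv]
    exact h x hx hadj.1) (by omega)
  have hres := Ub.edge hu hv huv hdel (hBc.mono hmono)
  rw [sum_range_succ, sum_range_succ, sum_range_zero, zero_add, Nat.sub_zero,
    show ec (del H u v) S - 2 = ec H S - 3 by omega,
    show ec (del H u v) S - 3 = ec H S - 4 by omega,
    show ec H S - 4 - 1 = ec H S - 5 by omega] at hres
  have hpoly : UU n (ec H S - 3) + X * (UU n (ec H S - 4) + UU n (ec H S - 5)) +
      X * UU n (ec H S - 4) =
      UU n (ec H S - 3) + X * (2 * UU n (ec H S - 4) + UU n (ec H S - 5)) := by ring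
  rw [hpoly] at hres
  exact hres

end Pool.Agent.Lib.H20WE
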