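import Pool.Agent.Lib.H20WE.D9
import Pool.Agent.Lib.H20WD.T3
import Pool.Agent.Lib.H20WE.A3

/-! # D10: the extremal graph with a component `K_4` -/

set_option autoImplicit false

namespace Pool.Agent.Lib.H20WE

open Finset Polynomial Pool.Agent.Lib.H20WD
open scoped Classical

private theorem D10_range (m : ℕ) (inst : DecidableEq ℕ) :
    @Finset.erase ℕ inst (@Finset.erase ℕ inst (@Finset.erase ℕ inst
      (@Finset.erase ℕ inst (range (m + 4)) m) (m + 1)) (m + 2)) (m + 3) = range m := by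
  ext a
  rw [mem_erase, mem_erase, mem_erase, mem_erase, mem_range, mem_range]
  omega

/-- `H` and a complete graph on `m, ..., m + 3`. -/
private def D10_G (H : SimpleGraph ℕ) (m : ℕ) : SimpleGraph ℕ where
  Adj a b := H.Adj a b ∨ (a ≠ b ∧ (m ≤ a ∧ a < m + 4) ∧ m ≤ b ∧ b < m + 4)
  symm := ⟨fun _ _ h => h.elim (fun h => Or.inl h.symm) fun h => Or.inr ⟨h.1.symm, h.2.2, h.2.1⟩⟩
  loopless := ⟨fun _ h => h.elim (fun h => h.ne rfl) fun h => h.1 rfl⟩

private theorem D10_adj {H : SimpleGraph ℕ} {m a b : ℕ} : (D10_G H m).Adj a b ↔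
    H.Adj a b ∨ (a ≠ b ∧ (m ≤ a ∧ a < m + 4) ∧ m ≤ b ∧ b < m + 4) := Iff.rfl

private theorem D10_dg {H : SimpleGraph ℕ} {m : ℕ} (h : ∀ a b, H.Adj a b → a < m) {a x y z : ℕ}
    (ha : m ≤ a ∧ a < m + 4) (hxy : x ≠ y) (hxz : x ≠ z) (hyz : y ≠ z)
    (he : ∀ w, (a ≠ w ∧ m ≤ w ∧ w < m + 4) ↔ (w = x ∨ w = y ∨ w = z)) :
    dg (D10_G H m) (range (m + 4)) a = 3 := by
  unfold dg
  refine Finset.card_eq_three.2 ⟨x, y, z, hxy, hxz, hyz, ?_⟩
  ext w
  rw [mem_filter, mem_range, D10_adj, mem_insert, mem_insert, mem_singleton, ← he w]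
  constructor
  · rintro ⟨h1, h2 | h2⟩
    · have := h a w h2
      omega
    · exact ⟨h2.1, h2.2.2⟩
  · rintro ⟨h1, h2⟩
    exact ⟨h2.2, Or.inr ⟨h1, ha, h2⟩⟩

private theorem D10_att {m l : ℕ} {p : ℕ[X]} {H : SimpleGraph ℕ} (h : AttG m l p H) :
    AttG (m + 4) (l + 6) (kk * p) (D10_G H m) := by
  obtain ⟨h1, h2, h3, h4⟩ := h
  have hK : IsK (D10_G H m) (range (m + 4)) m (m + 1) (m + 2) (m + 3) := by
    refine ⟨mem_range.2 (by omega), mem_range.2 (by omega), mem_range.2 (by omega),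
      mem_range.2 (by omega), Or.inr (by omega), Or.inr (by omega), Or.inr (by omega),
      Or.inr (by omega), Or.inr (by omega), Or.inr (by omega), ?_, ?_, ?_, ?_⟩
    · exact D10_dg h1 (x := m + 1) (y := m + 2) (z := m + 3) (by omega) (by omega) (by omega)
        (by omega) (by intro w; omega)
    · exact D10_dg h1 (x := m) (y := m + 2) (z := m + 3) (by omega) (by omega) (by omega)
        (by omega) (by intro w; omega)
    · exact D10_dg h1 (x := m) (y := m + 1) (z := m + 3) (by omega) (by omega) (by omega)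
        (by omega) (by intro w; omega)
    · exact D10_dg h1 (x := m) (y := m + 1) (z := m + 2) (by omega) (by omega) (by omega)
        (by omega) (by intro w; omega)
  have hadj : ∀ a ∈ range m, ∀ b ∈ range m, (H.Adj a b ↔ (D10_G H m).Adj a b) := by
    intro a ha b hb
    rw [mem_range] at ha hb
    rw [D10_adj]
    constructor
    · exact fun h => Or.inl h
    · rintro (h | h)
      · exact h
      · omega
  have hp : Cp (D10_G H m) (range m) p := by
    refine Cp.congr hadj ⟨fun j hj => h3 j ?_, fun q => ?_⟩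
    · rw [card_range] at hj
      exact hj
    · rw [card_range]
      exact h4 q
  rw [← D10_range m _] at hp
  have hC := cp_k4 hK hp
  have hE := hK.card.2
  rw [D10_range m _, ← ec_congr hadj, h2] at hE
  refine ⟨?_, hE.symm, fun j hj => hC.1 j ?_, fun q => ?_⟩
  · rintro a b (h | h)
    · have := h1 a b h
      omega
    · omega
  · rw [card_range]
    exact hj
  · have h5 := hC.2 q
    rw [card_range] at h5
    exact h5

/-- Proof. `att_PP` for `n - 4` and `k - 6` (`k - 6 < n - 4`) gives `H` on `range (n - 4)`. Put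
`H'.Adj a b ↔ H.Adj a b ∨ (a ≠ b ∧ n - 4 ≤ a ∧ a < n ∧ n - 4 ≤ b ∧ b < n)`. The last four vertices
are a component `K_4` (`IsK`), and `H'` is `H` on `range (n - 4)` (`Cp.congr`, `ec_congr`):
`cp_k4`, `IsK.card` (file `A3`; or count directly with `ec_erase`). -/
theorem att_LL {n k : ℕ} (h : n + 8 ≤ 2 * k) (hk : k < n) :
    ∃ H, AttG n k (kk * PP (n - 4) (k - 6)) H := by
  obtain ⟨H, hH⟩ := att_PP (n := n - 4) (k := k - 6) (by omega)
  have h1 := D10_att hH
  rw [show n - 4 + 4 = n by omega, show k - 6 + 6 = k by omega] at h1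
  exact ⟨_, h1⟩

end Pool.Agent.Lib.H20WE
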