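import Pool.Agent.Lib.H20WE.Defs

/-! # B4: a vertex with two neighbours that are not adjacent -/

set_option autoImplicit false

namespace Pool.Agent.Lib.H20WE

open Finset Polynomial Pool.Agent.Lib.H20WD
open scoped Classical

/-- Proof. `x = 2 k + 1 - n`. If `x % 3 = 2`, or `x % 3 = 0` and `x < 12`, or `x % 3 = 1` and
`x < 13`, all `UU` are `PP` (`UU_eq`, for `x - 3` and `x - 4`): `PP_two`.
`x = 3 t + 12`, `a = n - 1 - k`: `UU (n - 1) (k - 2) = bb ^ (a + 1) * (aa ^ (t + 3) + X ^ 5 * aa ^ t)`,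
`UU (n - 2) (k - 3) = bb ^ (a + 1) * aa ^ (t + 2) * (1 + 2 X)`, `PP n k = bb ^ a * aa ^ (t + 4)`; the
difference is `bb ^ a * aa ^ t` times `X^2 + 7 X^3 + 18 X^4 + 22 X^5 + 17 X^6 + 7 X^7 + X^8`.
`x = 3 t + 13`: `UU (n - 1) (k - 2) = bb ^ (a + 1) * aa ^ (t + 3) * bb`,
`UU (n - 2) (k - 3) = bb ^ (a + 1) * (aa ^ (t + 3) + X ^ 5 * aa ^ t)`,
`PP n k = bb ^ a * aa ^ (t + 4) * bb`; the difference is `bb ^ (a + 1) * aa ^ t` times
`X^2 + 9 X^3 + 30 X^4 + 45 X^5 + 28 X^6 + 9 X^7 + X^8`. -/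
theorem UU_two {n k : ℕ} (h : n + 3 ≤ 2 * k) (hk : k < n) :
    Le (UU (n - 1) (k - 2) + X * UU (n - 2) (k - 3) + X * UU (n - 2) (k - 3)) (PP n k) := by
  obtain ⟨a, ha⟩ : ∃ a, n = k + 1 + a := ⟨n - (k + 1), by omega⟩
  by_cases hA : (2 * k + 1 - n) % 3 = 0 ∧ 12 ≤ 2 * k + 1 - n
  · obtain ⟨t, ht⟩ : ∃ t, 2 * k + 1 = n + (3 * t + 12) :=
      ⟨(2 * k + 1 - n - 12) / 3, by omega⟩
    rw [UU_cl (n := n - 1) (k := k - 2) (j := 3 * t + 9) (by omega) (by omega),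
      UU_cl (n := n - 2) (k := k - 3) (j := 3 * t + 8) (by omega) (by omega),
      PP_cl (n := n) (k := k) (j := 3 * t + 12) ht hk,
      show n - 1 - 1 - (k - 2) = a + 1 by omega, show n - 2 - 1 - (k - 3) = a + 1 by omega,
      show n - 1 - k = a by omega, dd_c, dd_z (i := 3 * t + 8) (Or.inr (by omega)),
      show 3 * t + 9 = 3 * (t + 3) by ring, show 3 * t + 8 = 3 * (t + 2) + 2 by ring,
      show 3 * t + 12 = 3 * (t + 4) by ring, gg_c0, gg_c2, gg_c0, pow_add aa t 3, pow_add aa t 2,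
      pow_add aa t 4, pow_succ bb a]
    generalize bb ^ a = B
    generalize aa ^ t = A
    refine ⟨B * A * (X ^ 2 + 7 * X ^ 3 + 18 * X ^ 4 + 22 * X ^ 5 + 17 * X ^ 6 + 7 * X ^ 7 + X ^ 8), ?_⟩
    unfold bb aa
    ring
  by_cases hB : (2 * k + 1 - n) % 3 = 1 ∧ 13 ≤ 2 * k + 1 - n
  · obtain ⟨t, ht⟩ : ∃ t, 2 * k + 1 = n + (3 * t + 13) :=
      ⟨(2 * k + 1 - n - 13) / 3, by omega⟩
    rw [UU_cl (n := n - 1) (k := k - 2) (j := 3 * t + 10) (by omega) (by omega),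
      UU_cl (n := n - 2) (k := k - 3) (j := 3 * t + 9) (by omega) (by omega),
      PP_cl (n := n) (k := k) (j := 3 * t + 13) ht hk,
      show n - 1 - 1 - (k - 2) = a + 1 by omega, show n - 2 - 1 - (k - 3) = a + 1 by omega,
      show n - 1 - k = a by omega, dd_c, dd_z (i := 3 * t + 10) (Or.inr (by omega)),
      show 3 * t + 9 = 3 * (t + 3) by ring, show 3 * t + 10 = 3 * (t + 3) + 1 by ring,
      show 3 * t + 13 = 3 * (t + 4) + 1 by ring, gg_c0, gg_c1, gg_c1, pow_add aa t 3,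
      pow_add aa t 4, pow_succ bb a]
    generalize bb ^ a = B
    generalize aa ^ t = A
    refine ⟨B * bb * A * (X ^ 2 + 9 * X ^ 3 + 30 * X ^ 4 + 45 * X ^ 5 + 28 * X ^ 6 + 9 * X ^ 7 + X ^ 8), ?_⟩
    unfold bb aa
    ring
  · rw [UU_eq (n := n - 1) (k := k - 2) (by omega), UU_eq (n := n - 2) (k := k - 3) (by omega)]
    refine Le.trans (Le.of_eq ?_) (PP_two h hk)
    ring

end Pool.Agent.Lib.H20WE
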