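import Pool.Agent.Lib.H20WE.A1
import Pool.Agent.Lib.H20WE.B2
import Pool.Agent.Lib.H20WE.B4

/-! # D2: a vertex with two neighbours that are not adjacent -/

set_option autoImplicit false

namespace Pool.Agent.Lib.H20WE

open Finset Polynomial Pool.Agent.Lib.H20WD
open scoped Classical

variable {V : Type}

/-- Proof. As `case_two` (file `H20WD.E4`): `Ub.two`, the numbers of edges are `k - 2`,
`k - 1 - dg H S w ≤ k - 3`, `k - 1 - dg H S u ≤ k - 3`; `UU_mono`, `UU_two`. -/
theorem case_twoN {n : ℕ} (hU : ∀ m < n, BdU V m) {H : SimpleGraph V} {S : Finset V} (hS : #S = n)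
    (hk : ec H S < n) (hx : n + 8 ≤ 2 * ec H S) {u v w : V} (hu : u ∈ S) (hv : v ∈ S) (hw : w ∈ S)
    (hne : u ≠ w) (hvu : H.Adj v u) (hvw : H.Adj v w) (huw : ¬ H.Adj u w) (h2 : dg H S v = 2)
    (hdu : 2 ≤ dg H S u) (hdw : 2 ≤ dg H S w) : Ub H S (PP n (ec H S)) := by
  have hsub : ({u, w} : Finset V) ⊆ S.filter fun x => H.Adj v x := by
    intro x hx
    rw [mem_insert, mem_singleton] at hx
    rcases hx with rfl | rfl
    · exact mem_filter.2 ⟨hu, hvu⟩
    · exact mem_filter.2 ⟨hw, hvw⟩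
  have heq : ({u, w} : Finset V) = S.filter fun x => H.Adj v x := by
    refine eq_of_subset_of_card_le hsub ?_
    rw [card_pair hne]
    exact le_of_eq h2
  have hall : ∀ x ∈ S, H.Adj v x → x = u ∨ x = w := by
    intro x hx hadj
    have h3 : x ∈ ({u, w} : Finset V) := by
      rw [heq]
      exact mem_filter.2 ⟨hx, hadj⟩
    rw [mem_insert, mem_singleton] at h3
    exact h3
  have huv' : u ∈ S.erase v := mem_erase.2 ⟨hvu.ne.symm, hu⟩
  have hwv' : w ∈ S.erase v := mem_erase.2 ⟨hvw.ne.symm, hw⟩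
  have c1 : #(S.erase v) = n - 1 := by rw [card_erase_of_mem hv, hS]
  have c2 : #((S.erase v).erase w) = n - 2 := by
    rw [card_erase_of_mem hwv', c1]
    omega
  have c3 : #((S.erase v).erase u) = n - 2 := by
    rw [card_erase_of_mem huv', c1]
    omega
  have e1 := ec_erase H hv
  have e2 := ec_erase H hwv'
  have e3 := ec_erase H huv'
  have g2 := dg_erase H hv hvw.symm
  have g3 := dg_erase H hv hvu.symm
  have b1 := hU (n - 1) (by omega) H (S.erase v) c1 (by omega)
  have b2 := hU (n - 2) (by omega) H ((S.erase v).erase w) c2 (by omega)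
  have b3 := hU (n - 2) (by omega) H ((S.erase v).erase u) c3 (by omega)
  rw [show ec H (S.erase v) = ec H S - 2 by omega] at b1
  have l2 : Le (UU (n - 2) (ec H ((S.erase v).erase w))) (UU (n - 2) (ec H S - 3)) :=
    UU_mono (by omega) (by omega)
  have l3 : Le (UU (n - 2) (ec H ((S.erase v).erase u))) (UU (n - 2) (ec H S - 3)) :=
    UU_mono (by omega) (by omega)
  exact (Ub.two hu hv hw hne hvu hvw huw hall b1 (b2.mono l2) (b3.mono l3)).mono
    (UU_two (by omega) hk)

end Pool.Agent.Lib.H20WE
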