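import Pool.Agent.Lib.H20WE.A2
import Pool.Agent.Lib.H20WE.A3

/-! # D3: a component which is a triangle -/

set_option autoImplicit false

namespace Pool.Agent.Lib.H20WE

open Finset Polynomial Pool.Agent.Lib.H20WD
open scoped Classical

variable {V : Type}

private theorem D3_two {H : SimpleGraph V} {S : Finset V} {v u w : V} (hu : u ∈ S) (hw : w ∈ S)
    (hne : u ≠ w) (hvu : H.Adj v u) (hvw : H.Adj v w) (h2 : dg H S v = 2) :
    ∀ x ∈ S, H.Adj v x → x = u ∨ x = w := by
  intro x hx hvx
  have hsub : ({u, w} : Finset V) ⊆ S.filter fun y => H.Adj v y := by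
    intro y hy
    rw [mem_insert, mem_singleton] at hy
    rcases hy with rfl | rfl
    · exact mem_filter.2 ⟨hu, hvu⟩
    · exact mem_filter.2 ⟨hw, hvw⟩
  have hcard : #(S.filter fun y => H.Adj v y) ≤ #({u, w} : Finset V) := by
    rw [card_pair hne]
    exact h2.le
  have heq := eq_of_subset_of_card_le hsub hcard
  have hx' : x ∈ ({u, w} : Finset V) := by
    rw [heq]
    exact mem_filter.2 ⟨hx, hvx⟩
  rwa [mem_insert, mem_singleton] at hx'

/-- Proof. `T = ((S.erase v).erase u).erase w` has `n - 3` vertices and `ec H S - 3` edges. `NoK H T`: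
`noK_erase` three times (the neighbours `u`, `w` of `v` have degree one in `S.erase v`, the
neighbour `w` of `u` has degree zero in `(S.erase v).erase u`, `w` has no neighbour any more;
`InK.dg`). `hN (n - 3)`, `Ub.k3`, `PP_tri`. -/
theorem case_triN {n : ℕ} (hN : ∀ m < n, BdN V m) {H : SimpleGraph V} {S : Finset V} (hS : #S = n)
    (hk : ec H S < n) (hx : n + 8 ≤ 2 * ec H S) (hNK : NoK H S) {u v w : V} (hu : u ∈ S)
    (hv : v ∈ S) (hw : w ∈ S) (hvu : H.Adj v u) (hvw : H.Adj v w) (huw : H.Adj u w)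
    (h2 : dg H S v = 2) (hdu : dg H S u = 2) (hdw : dg H S w = 2) : Ub H S (PP n (ec H S)) := by
  have hvu' := hvu.ne
  have hvw' := hvw.ne
  have huw' := huw.ne
  have hu1 : u ∈ S.erase v := mem_erase.2 ⟨hvu'.symm, hu⟩
  have hw1 : w ∈ S.erase v := mem_erase.2 ⟨hvw'.symm, hw⟩
  have hw2 : w ∈ (S.erase v).erase u := mem_erase.2 ⟨huw'.symm, hw1⟩
  have n1 := D3_two hu hw huw' hvu hvw h2
  have n2 := D3_two hv hw hvw' hvu.symm huw hdu
  have n3 := D3_two hv hu hvu' hvw.symm huw.symm hdw
  have d1 : dg H (S.erase v) u + 1 = dg H S u := dg_erase H hv hvu.symm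
  have d2 : dg H (S.erase v) w + 1 = dg H S w := dg_erase H hv hvw.symm
  have d3 : dg H ((S.erase v).erase u) w + 1 = dg H (S.erase v) w := dg_erase H hu1 huw.symm
  have e1 := ec_erase H hv
  have e2 := ec_erase H hu1
  have e3 := ec_erase H hw2
  have c1 := card_erase_add_one hv
  have c2 := card_erase_add_one hu1
  have c3 := card_erase_add_one hw2
  have hN1 : NoK H (S.erase v) := by
    refine noK_erase hNK fun y hvy hy => ?_
    have hyS := (mem_erase.1 hy.mem).2
    have hyd := hy.dg
    rcases n1 y hyS hvy with rfl | rfl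
    · omega
    · omega
  have hN2 : NoK H ((S.erase v).erase u) := by
    refine noK_erase hN1 fun y huy hy => ?_
    have hym := mem_erase.1 (mem_erase.1 hy.mem).2
    have hyd := hy.dg
    rcases n2 y hym.2 huy with rfl | rfl
    · exact hym.1 rfl
    · omega
  have hN3 : NoK H (((S.erase v).erase u).erase w) := by
    refine noK_erase hN2 fun y hwy hy => ?_
    have hym := mem_erase.1 (mem_erase.1 hy.mem).2
    have hym' := mem_erase.1 hym.2
    rcases n3 y hym'.2 hwy with rfl | rfl
    · exact hym'.1 rfl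
    · exact hym.1 rfl
  have hb := hN (n - 3) (by omega) H (((S.erase v).erase u).erase w) (by omega) (by omega) hN3
  have he : ec H (((S.erase v).erase u).erase w) = ec H S - 3 := by omega
  rw [he] at hb
  rw [PP_tri (n := n) (k := ec H S) (by omega) hk]
  exact Ub.k3 hu hv hw hvu hvw huw n1 n2 n3 hb

end Pool.Agent.Lib.H20WE
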