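import Pool.Agent.Lib.H20WE.Defs

/-! # B5: a triangle -/

set_option autoImplicit false

namespace Pool.Agent.Lib.H20WE

open Finset Polynomial Pool.Agent.Lib.H20WD
open scoped Classical

private theorem B5_key0 : aa ^ 4 = bb * (aa ^ 3 + X ^ 5) + X * (bb * (aa ^ 2 * (1 + 2 * X))) +
    X * (bb ^ 2 * aa ^ 2 + X * (bb * (aa ^ 2 * bb))) +
    (X ^ 2 + 6 * X ^ 3 + 11 * X ^ 4 + 5 * X ^ 5) := by
  unfold aa bb
  ring

private theorem B5_key0' : aa ^ 5 = bb * aa ^ 4 + X * (bb * (aa ^ 3 * (1 + 2 * X))) +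
    X * (bb ^ 2 * (aa ^ 3 + X ^ 5) + X * (bb * (aa ^ 3 * bb))) +
    (X ^ 2 + 9 * X ^ 3 + 30 * X ^ 4 + 45 * X ^ 5 + 29 * X ^ 6 + 7 * X ^ 7) := by
  unfold aa bb
  ring

private theorem B5_key1 : aa ^ 4 * bb = bb * (aa ^ 3 * bb) + X * (bb * (aa ^ 3 + X ^ 5)) +
    X * (bb ^ 2 * (aa ^ 2 * bb) + X * (bb * (aa ^ 2 * (1 + 2 * X)))) +
    (X ^ 2 + 8 * X ^ 3 + 25 * X ^ 4 + 41 * X ^ 5 + 40 * X ^ 6 + 24 * X ^ 7 + 8 * X ^ 8 + X ^ 9) := by
  unfold aa bb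
  ring

private theorem B5_three {n k : ℕ} (h : n + 5 ≤ 2 * k) (hk : k < n) :
    Le (PP (n - 1) (k - 2) + X * PP (n - 2) (k - 3) +
      X * (PP (n - 2) (k - 4) + X * PP (n - 3) (k - 4))) (PP n k) := by
  have h1 := PP_three h hk
  have h2 : PP (n - 1) (k - 2) + X * PP (n - 2) (k - 3) +
      X * (PP (n - 2) (k - 4) + X * PP (n - 3) (k - 4)) =
      PP (n - 1) (k - 2) + X * (PP (n - 2) (k - 4) + PP (n - 2) (k - 3)) +
      X ^ 2 * PP (n - 3) (k - 4) := by ring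
  rw [h2]
  exact h1

/-- Proof. `x = 2 k + 1 - n`. If `x < 12`: `UU (n - 1) (k - 2) = PP (n - 1) (k - 2)` (`UU_eq`), and
`PP_three`. Otherwise `x = 3 t + 12`, `a = n - 1 - k`:
`UU (n - 1) (k - 2) = bb ^ (a + 1) * (aa ^ (t + 3) + X ^ 5 * aa ^ t)`,
`PP (n - 2) (k - 3) = bb ^ (a + 1) * aa ^ (t + 2) * (1 + 2 X)`,
`PP (n - 2) (k - 4) = bb ^ (a + 2) * aa ^ (t + 2)`, `PP (n - 3) (k - 4) = bb ^ (a + 1) * aa ^ (t + 2) * bb`,
`PP n k = bb ^ a * aa ^ (t + 4)`; the difference is `bb ^ a * aa ^ t` times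
`X^2 + 6 X^3 + 11 X^4 + 5 X^5`. -/
theorem UU_three0 {n k : ℕ} (h : n + 5 ≤ 2 * k) (hk : k < n) (h3 : (2 * k + 1 - n) % 3 = 0) :
    Le (UU (n - 1) (k - 2) + X * PP (n - 2) (k - 3) +
      X * (PP (n - 2) (k - 4) + X * PP (n - 3) (k - 4))) (PP n k) := by
  by_cases hx : 2 * k + 1 - n < 12
  · rw [UU_eq (n := n - 1) (k := k - 2) (Or.inl (by omega))]
    exact B5_three h hk
  · push Not at hx
    obtain ⟨t, ht⟩ : ∃ t, 2 * k + 1 - n = 3 * t + 12 := ⟨(2 * k + 1 - n - 12) / 3, by omega⟩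
    obtain ⟨a, ha⟩ : ∃ a, a = n - 1 - k := ⟨_, rfl⟩
    rw [UU_cl (n := n - 1) (k := k - 2) (j := 3 * t + 9) (by omega) (by omega),
      PP_cl (n := n - 2) (k := k - 3) (j := 3 * (t + 2) + 2) (by omega) (by omega),
      PP_cl (n := n - 2) (k := k - 4) (j := 3 * (t + 2)) (by omega) (by omega),
      PP_cl (n := n - 3) (k := k - 4) (j := 3 * (t + 2) + 1) (by omega) (by omega),
      PP_cl (n := n) (k := k) (j := 3 * (t + 4)) (by omega) (by omega),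
      show n - 1 - 1 - (k - 2) = a + 1 by omega, show n - 2 - 1 - (k - 3) = a + 1 by omega,
      show n - 2 - 1 - (k - 4) = a + 2 by omega, show n - 3 - 1 - (k - 4) = a + 1 by omega,
      ← ha, dd_c, show 3 * t + 9 = 3 * (t + 3) by ring, gg_c0, gg_c2, gg_c0, gg_c1, gg_c0]
    refine ⟨bb ^ a * aa ^ t * (X ^ 2 + 6 * X ^ 3 + 11 * X ^ 4 + 5 * X ^ 5), ?_⟩
    calc bb ^ a * aa ^ (t + 4) = bb ^ a * aa ^ t * aa ^ 4 := by ring
      _ = _ := by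
        rw [B5_key0]
        ring

/-- Proof. `UU (n - 2) (k - 3) = PP (n - 2) (k - 3)` and `UU (n - 3) (k - 4) = PP (n - 3) (k - 4)`
(`UU_eq`: `x - 4` and `x - 5` are not divisible by three). If `x < 15` also
`UU (n - 2) (k - 4) = PP (n - 2) (k - 4)`: `PP_three`. Otherwise `x = 3 t + 15`, `a = n - 1 - k`:
`PP (n - 1) (k - 2) = bb ^ (a + 1) * aa ^ (t + 4)`,
`PP (n - 2) (k - 3) = bb ^ (a + 1) * aa ^ (t + 3) * (1 + 2 X)`,
`UU (n - 2) (k - 4) = bb ^ (a + 2) * (aa ^ (t + 3) + X ^ 5 * aa ^ t)`,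
`PP (n - 3) (k - 4) = bb ^ (a + 1) * aa ^ (t + 3) * bb`, `PP n k = bb ^ a * aa ^ (t + 5)`; the
difference is `bb ^ a * aa ^ t` times `X^2 + 9 X^3 + 30 X^4 + 45 X^5 + 29 X^6 + 7 X^7`. -/
theorem UU_three0' {n k : ℕ} (h : n + 5 ≤ 2 * k) (hk : k < n) (h3 : (2 * k + 1 - n) % 3 = 0) :
    Le (PP (n - 1) (k - 2) + X * UU (n - 2) (k - 3) +
      X * (UU (n - 2) (k - 4) + X * UU (n - 3) (k - 4))) (PP n k) := by
  rw [UU_eq (n := n - 2) (k := k - 3) (Or.inr (by omega)),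
    UU_eq (n := n - 3) (k := k - 4) (Or.inr (by omega))]
  by_cases hx : 2 * k + 1 - n < 15
  · rw [UU_eq (n := n - 2) (k := k - 4) (Or.inl (by omega))]
    exact B5_three h hk
  · push Not at hx
    obtain ⟨t, ht⟩ : ∃ t, 2 * k + 1 - n = 3 * t + 15 := ⟨(2 * k + 1 - n - 15) / 3, by omega⟩
    obtain ⟨a, ha⟩ : ∃ a, a = n - 1 - k := ⟨_, rfl⟩
    rw [PP_cl (n := n - 1) (k := k - 2) (j := 3 * (t + 4)) (by omega) (by omega),
      PP_cl (n := n - 2) (k := k - 3) (j := 3 * (t + 3) + 2) (by omega) (by omega),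
      UU_cl (n := n - 2) (k := k - 4) (j := 3 * t + 9) (by omega) (by omega),
      PP_cl (n := n - 3) (k := k - 4) (j := 3 * (t + 3) + 1) (by omega) (by omega),
      PP_cl (n := n) (k := k) (j := 3 * (t + 5)) (by omega) (by omega),
      show n - 1 - 1 - (k - 2) = a + 1 by omega, show n - 2 - 1 - (k - 3) = a + 1 by omega,
      show n - 2 - 1 - (k - 4) = a + 2 by omega, show n - 3 - 1 - (k - 4) = a + 1 by omega,
      ← ha, dd_c, show 3 * t + 9 = 3 * (t + 3) by ring, gg_c0, gg_c2, gg_c0, gg_c1, gg_c0]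
    refine ⟨bb ^ a * aa ^ t * (X ^ 2 + 9 * X ^ 3 + 30 * X ^ 4 + 45 * X ^ 5 + 29 * X ^ 6 +
      7 * X ^ 7), ?_⟩
    calc bb ^ a * aa ^ (t + 5) = bb ^ a * aa ^ t * aa ^ 5 := by ring
      _ = _ := by
        rw [B5_key0']
        ring

/-- Proof. All but `UU (n - 2) (k - 3)` are `PP` (`UU_eq`), and this one as well if `x < 13`:
`PP_three`. Otherwise `x = 3 t + 13`, `a = n - 1 - k`:
`UU (n - 1) (k - 2) = bb ^ (a + 1) * aa ^ (t + 3) * bb`,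
`UU (n - 2) (k - 3) = bb ^ (a + 1) * (aa ^ (t + 3) + X ^ 5 * aa ^ t)`,
`UU (n - 2) (k - 4) = bb ^ (a + 2) * aa ^ (t + 2) * bb`,
`UU (n - 3) (k - 4) = bb ^ (a + 1) * aa ^ (t + 2) * (1 + 2 X)`, `PP n k = bb ^ a * aa ^ (t + 4) * bb`;
the difference is `bb ^ a * aa ^ t` times
`X^2 + 8 X^3 + 25 X^4 + 41 X^5 + 40 X^6 + 24 X^7 + 8 X^8 + X^9`. -/
theorem UU_three1 {n k : ℕ} (h : n + 5 ≤ 2 * k) (hk : k < n) (h3 : (2 * k + 1 - n) % 3 = 1) :
    Le (UU (n - 1) (k - 2) + X * UU (n - 2) (k - 3) +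
      X * (UU (n - 2) (k - 4) + X * UU (n - 3) (k - 4))) (PP n k) := by
  rw [UU_eq (n := n - 1) (k := k - 2) (Or.inr (by omega)),
    UU_eq (n := n - 2) (k := k - 4) (Or.inr (by omega)),
    UU_eq (n := n - 3) (k := k - 4) (Or.inr (by omega))]
  by_cases hx : 2 * k + 1 - n < 13
  · rw [UU_eq (n := n - 2) (k := k - 3) (Or.inl (by omega))]
    exact B5_three h hk
  · push Not at hx
    obtain ⟨t, ht⟩ : ∃ t, 2 * k + 1 - n = 3 * t + 13 := ⟨(2 * k + 1 - n - 13) / 3, by omega⟩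
    obtain ⟨a, ha⟩ : ∃ a, a = n - 1 - k := ⟨_, rfl⟩
    rw [PP_cl (n := n - 1) (k := k - 2) (j := 3 * (t + 3) + 1) (by omega) (by omega),
      UU_cl (n := n - 2) (k := k - 3) (j := 3 * t + 9) (by omega) (by omega),
      PP_cl (n := n - 2) (k := k - 4) (j := 3 * (t + 2) + 1) (by omega) (by omega),
      PP_cl (n := n - 3) (k := k - 4) (j := 3 * (t + 2) + 2) (by omega) (by omega),
      PP_cl (n := n) (k := k) (j := 3 * (t + 4) + 1) (by omega) (by omega),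
      show n - 1 - 1 - (k - 2) = a + 1 by omega, show n - 2 - 1 - (k - 3) = a + 1 by omega,
      show n - 2 - 1 - (k - 4) = a + 2 by omega, show n - 3 - 1 - (k - 4) = a + 1 by omega,
      ← ha, dd_c, show 3 * t + 9 = 3 * (t + 3) by ring, gg_c1, gg_c0, gg_c1, gg_c2, gg_c1]
    refine ⟨bb ^ a * aa ^ t * (X ^ 2 + 8 * X ^ 3 + 25 * X ^ 4 + 41 * X ^ 5 + 40 * X ^ 6 +
      24 * X ^ 7 + 8 * X ^ 8 + X ^ 9), ?_⟩
    calc bb ^ a * (aa ^ (t + 4) * bb) = bb ^ a * aa ^ t * (aa ^ 4 * bb) := by ring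
      _ = _ := by
        rw [B5_key1]
        ring

end Pool.Agent.Lib.H20WE
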