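import Pool.Agent.Lib.H20WE.A1
import Pool.Agent.Lib.H20WE.A3
import Pool.Agent.Lib.H20WE.B2
import Pool.Agent.Lib.H20WE.B5

/-! # D4: a triangle, `x % 3 ≠ 2` -/

set_option autoImplicit false

namespace Pool.Agent.Lib.H20WE

open Finset Polynomial Pool.Agent.Lib.H20WD
open scoped Classical

variable {V : Type}

private theorem D4_nb (H : SimpleGraph V) {S : Finset V} {u v w : V} (hu : u ∈ S) (hw : w ∈ S)
    (hne : u ≠ w) (hvu : H.Adj v u) (hvw : H.Adj v w) (h2 : dg H S v = 2) :
    ∀ x ∈ S, H.Adj v x → x = u ∨ x = w := by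
  intro x hx hvx
  have hsub : ({u, w} : Finset V) ⊆ S.filter fun y => H.Adj v y := by
    intro y hy
    rw [mem_insert, mem_singleton] at hy
    rcases hy with rfl | rfl
    · exact mem_filter.2 ⟨hu, hvu⟩
    · exact mem_filter.2 ⟨hw, hvw⟩
  have hcard : #(S.filter fun y => H.Adj v y) ≤ #({u, w} : Finset V) := by
    rw [card_pair hne]
    exact h2.le
  have heq := eq_of_subset_of_card_le hsub hcard
  have hx' : x ∈ ({u, w} : Finset V) := by
    rw [heq]
    exact mem_filter.2 ⟨hx, hvx⟩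
  rwa [mem_insert, mem_singleton] at hx'

/-- Proof. `k = ec H S`, `x = 2 k + 1 - n ≥ 9`, `T = ((S.erase v).erase u).erase w`. `Ub.three`. The
numbers of edges (`ec_erase`, `dg_erase`, see `E5_ec` in the file `H20WD.E5`): `S.erase v`: `k - 2`;
`(S.erase v).erase w`: `k - 1 - dg H S w ≤ k - 3`; `(S.erase v).erase u`: `k - 1 - dg H S u ≤ k - 4`;
`T`: `k + 1 - dg H S u - dg H S w ≤ k - 4`.
`x % 3 = 1`: `hU`, `UU_mono`, `UU_three1`.
`x % 3 = 0`, `NoK H (S.erase v)`: `hN` for `S.erase v`, `hU` and `UU_mono` for the others,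
`UU_three0'`.
`x % 3 = 0`, otherwise: by `exists_adj_of_inK` a neighbour `y` of `v` has `InK H (S.erase v) y`; `y` is
`u` or `w`, so both are (`InK.adj`), so both have degree three in `S.erase v` and degree four in
`S`. The numbers of edges are `k - 2`, `k - 5`, `k - 5`, `k - 7`; `UU_lt` for the last three,
`UU_three0`. -/
theorem case_threeN {n : ℕ} (hU : ∀ m < n, BdU V m) (hN : ∀ m < n, BdN V m) {H : SimpleGraph V}
    {S : Finset V} (hS : #S = n) (hk : ec H S < n) (hx : n + 8 ≤ 2 * ec H S) (hNK : NoK H S)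
    {u v w : V} (hu : u ∈ S) (hv : v ∈ S) (hw : w ∈ S) (hvu : H.Adj v u) (hvw : H.Adj v w)
    (huw : H.Adj u w) (h2 : dg H S v = 2) (hdu : 3 ≤ dg H S u) (hdw : 2 ≤ dg H S w)
    (h3 : (2 * ec H S + 1 - n) % 3 ≠ 2) : Ub H S (PP n (ec H S)) := by
  have hnb := D4_nb H hu hw huw.ne hvu hvw h2
  have hu1 : u ∈ S.erase v := mem_erase.2 ⟨hvu.symm.ne, hu⟩
  have hw1 : w ∈ S.erase v := mem_erase.2 ⟨hvw.symm.ne, hw⟩
  have hw2 : w ∈ (S.erase v).erase u := mem_erase.2 ⟨huw.symm.ne, hw1⟩
  have e1 := ec_erase H hv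
  have e2 := ec_erase H hu1
  have e3 := ec_erase H hw1
  have e4 := ec_erase H hw2
  have d1 := dg_erase H (S := S) hv hvu.symm
  have d2 := dg_erase H (S := S) hv hvw.symm
  have d3 := dg_erase H (S := S.erase v) hu1 huw.symm
  have c1 := card_erase_of_mem hv
  have c2 := card_erase_of_mem hu1
  have c3 := card_erase_of_mem hw1
  have c4 := card_erase_of_mem hw2
  obtain ⟨k, hkk⟩ : ∃ k, k = ec H S := ⟨_, rfl⟩
  rw [← hkk] at e1 hk hx h3 ⊢
  have f1 : ec H (S.erase v) = k - 2 := by omega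
  have hU1 : Ub H (S.erase v) (UU (n - 1) (k - 2)) := by
    have := hU (n - 1) (by omega) H (S.erase v) (by omega) (by omega)
    rwa [f1] at this
  by_cases hm : (2 * k + 1 - n) % 3 = 1
  · have hU2 : Ub H ((S.erase v).erase w) (UU (n - 2) (k - 3)) :=
      (hU (n - 2) (by omega) H _ (by omega) (by omega)).mono (UU_mono (by omega) (by omega))
    have hU3 : Ub H ((S.erase v).erase u) (UU (n - 2) (k - 4)) :=
      (hU (n - 2) (by omega) H _ (by omega) (by omega)).mono (UU_mono (by omega) (by omega))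
    have hU4 : Ub H (((S.erase v).erase u).erase w) (UU (n - 3) (k - 4)) :=
      (hU (n - 3) (by omega) H _ (by omega) (by omega)).mono (UU_mono (by omega) (by omega))
    exact (Ub.three hu hv hw hvu hvw huw hnb hU1 hU2 hU3 hU4).mono
      (UU_three1 (by omega) hk hm)
  have hm0 : (2 * k + 1 - n) % 3 = 0 := by omega
  by_cases hNv : NoK H (S.erase v)
  · have hP1 : Ub H (S.erase v) (PP (n - 1) (k - 2)) := by
      have := hN (n - 1) (by omega) H (S.erase v) (by omega) (by omega) hNv
      rwa [f1] at this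
    have hU2 : Ub H ((S.erase v).erase w) (UU (n - 2) (k - 3)) :=
      (hU (n - 2) (by omega) H _ (by omega) (by omega)).mono (UU_mono (by omega) (by omega))
    have hU3 : Ub H ((S.erase v).erase u) (UU (n - 2) (k - 4)) :=
      (hU (n - 2) (by omega) H _ (by omega) (by omega)).mono (UU_mono (by omega) (by omega))
    have hU4 : Ub H (((S.erase v).erase u).erase w) (UU (n - 3) (k - 4)) :=
      (hU (n - 3) (by omega) H _ (by omega) (by omega)).mono (UU_mono (by omega) (by omega))
    exact (Ub.three hu hv hw hvu hvw huw hnb hP1 hU2 hU3 hU4).mono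
      (UU_three0' (by omega) hk hm0)
  · have hex : ∃ a, InK H (S.erase v) a := by
      by_contra hcon
      exact hNv fun a ha => hcon ⟨a, ha⟩
    obtain ⟨a, ha⟩ := hex
    obtain ⟨y, hy, hvy⟩ := exists_adj_of_inK hNK ha
    have hyS : y ∈ S := (mem_erase.1 hy.mem).2
    have hboth : InK H (S.erase v) u ∧ InK H (S.erase v) w := by
      rcases hnb y hyS hvy with rfl | rfl
      · exact ⟨hy, hy.adj hw1 huw⟩
      · exact ⟨hy.adj hu1 huw.symm, hy⟩
    have du := hboth.1.dg
    have dw := hboth.2.dg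
    have hP2 : Ub H ((S.erase v).erase w) (PP (n - 2) (k - 3)) :=
      (hU (n - 2) (by omega) H _ (by omega) (by omega)).mono (UU_lt (by omega) (by omega))
    have hP3 : Ub H ((S.erase v).erase u) (PP (n - 2) (k - 4)) :=
      (hU (n - 2) (by omega) H _ (by omega) (by omega)).mono (UU_lt (by omega) (by omega))
    have hP4 : Ub H (((S.erase v).erase u).erase w) (PP (n - 3) (k - 4)) :=
      (hU (n - 3) (by omega) H _ (by omega) (by omega)).mono (UU_lt (by omega) (by omega))
    exact (Ub.three hu hv hw hvu hvw huw hnb hU1 hP2 hP3 hP4).mono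
      (UU_three0 (by omega) hk hm0)

end Pool.Agent.Lib.H20WE
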