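import Pool.Agent.Lib.H20WE.Defs

/-! # B6: a triangle with one edge to the rest -/

set_option autoImplicit false

namespace Pool.Agent.Lib.H20WE

open Finset Polynomial Pool.Agent.Lib.H20WD
open scoped Classical

/-- Proof. `x = 2 k + 1 - n = 3 t + 14`, `a = n - 1 - k`:
`UU (n - 3) (k - 4) = bb ^ (a + 1) * (aa ^ (t + 3) + X ^ 5 * aa ^ t)` (`x - 5 = 3 t + 9`),
`UU (n - 4) (k - 7) = bb ^ (a + 3) * aa ^ (t + 1) * bb` (`x - 10 = 3 t + 4`),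
`PP n k = bb ^ a * aa ^ (t + 4) * (1 + 2 X)`; the difference is `bb ^ a * aa ^ (t + 1)` times
`4 X^2 + 20 X^3 + 35 X^4 + 24 X^5 + 7 X^6 + X^7`. -/
theorem UU_kite {n k : ℕ} (h : n + 13 ≤ 2 * k) (hk : k < n) (h3 : (2 * k + 1 - n) % 3 = 2) :
    Le (aa * UU (n - 3) (k - 4) + X * (bb * UU (n - 4) (k - 7))) (PP n k) := by
  obtain ⟨t, ht⟩ : ∃ t, 2 * k + 1 = n + (3 * t + 14) := ⟨(2 * k + 1 - n - 14) / 3, by omega⟩
  obtain ⟨a, ha⟩ : ∃ a, n = k + 1 + a := ⟨n - 1 - k, by omega⟩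
  have e1 : UU (n - 3) (k - 4) = bb ^ (a + 1) * (aa ^ (t + 3) + X ^ 5 * aa ^ t) := by
    rw [UU_cl (j := 3 * t + 9) (by omega) (by omega), dd_c,
      show 3 * t + 9 = 3 * (t + 3) by ring, gg_c0, show n - 3 - 1 - (k - 4) = a + 1 by omega]
  have e2 : UU (n - 4) (k - 7) = bb ^ (a + 3) * (aa ^ (t + 1) * bb) := by
    rw [UU_cl (j := 3 * t + 4) (by omega) (by omega), dd_z (by omega),
      show 3 * t + 4 = 3 * (t + 1) + 1 by ring, gg_c1, add_zero,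
      show n - 4 - 1 - (k - 7) = a + 3 by omega]
  have e3 : PP n k = bb ^ a * (aa ^ (t + 4) * (1 + 2 * X)) := by
    rw [PP_cl (j := 3 * t + 14) (by omega) (by omega),
      show 3 * t + 14 = 3 * (t + 4) + 2 by ring, gg_c2, show n - 1 - k = a by omega]
  have key : aa ^ 3 * (1 + 2 * X) = bb * (aa ^ 3 + X ^ 5) + X * bb ^ 5 +
      (4 * X ^ 2 + 20 * X ^ 3 + 35 * X ^ 4 + 24 * X ^ 5 + 7 * X ^ 6 + X ^ 7) := by
    unfold aa bb
    ring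
  refine ⟨bb ^ a * aa ^ (t + 1) *
    (4 * X ^ 2 + 20 * X ^ 3 + 35 * X ^ 4 + 24 * X ^ 5 + 7 * X ^ 6 + X ^ 7), ?_⟩
  rw [e1, e2, e3]
  calc bb ^ a * (aa ^ (t + 4) * (1 + 2 * X)) = bb ^ a * aa ^ (t + 1) * (aa ^ 3 * (1 + 2 * X)) := by
        ring
    _ = _ := by
        rw [key]
        ring

/-- Proof. `x = 2 k + 1 - n`, `a = n - 1 - k`.
`x = 3 t + 10`: `UU (n - 4) (k - 6) = bb ^ (a + 2) * aa ^ t * (1 + 2 X)`,
`PP n k = bb ^ a * aa ^ (t + 3) * bb`; the difference is `bb ^ (a + 1) * aa ^ t` times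
`aa ^ 3 - kk * bb * (1 + 2 X) = 3 X^2 + 11 X^3 + 13 X^4 + 7 X^5 + X^6`.
`x = 3 t + 11`: `UU (n - 4) (k - 6) = bb ^ (a + 2) * (aa ^ (t + 1) + dd (3 t + 3))`,
`PP n k = bb ^ a * aa ^ (t + 3) * (1 + 2 X)`;
`aa ^ 2 * (1 + 2 X) - kk * bb ^ 2 = 3 X^2 + 7 X^3 + 4 X^4 + X^5`. For `t < 2` this is all
(`dd_z`); for `t = s + 2` the difference is `bb ^ a * aa ^ s` times
`aa ^ 3 * (3 X^2 + 7 X^3 + 4 X^4 + X^5) - kk * bb ^ 2 * X ^ 5`. -/
theorem kk_UU {n k : ℕ} (h : n + 8 ≤ 2 * k) (hk : k < n) (h3 : (2 * k + 1 - n) % 3 ≠ 0) :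
    Le (kk * UU (n - 4) (k - 6)) (PP n k) := by
  obtain ⟨a, ha⟩ : ∃ a, n = k + 1 + a := ⟨n - 1 - k, by omega⟩
  rcases (by omega : (2 * k + 1 - n) % 3 = 1 ∨ (2 * k + 1 - n) % 3 = 2) with h1 | h2
  · obtain ⟨t, ht⟩ : ∃ t, 2 * k + 1 = n + (3 * t + 10) := ⟨(2 * k + 1 - n - 10) / 3, by omega⟩
    have e1 : UU (n - 4) (k - 6) = bb ^ (a + 2) * (aa ^ t * (1 + 2 * X)) := by
      rw [UU_cl (j := 3 * t + 2) (by omega) (by omega), dd_z (by omega), gg_c2, add_zero,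
        show n - 4 - 1 - (k - 6) = a + 2 by omega]
    have e3 : PP n k = bb ^ a * (aa ^ (t + 3) * bb) := by
      rw [PP_cl (j := 3 * t + 10) (by omega) (by omega),
        show 3 * t + 10 = 3 * (t + 3) + 1 by ring, gg_c1, show n - 1 - k = a by omega]
    have key : aa ^ 3 = kk * bb * (1 + 2 * X) +
        (3 * X ^ 2 + 11 * X ^ 3 + 13 * X ^ 4 + 7 * X ^ 5 + X ^ 6) := by
      unfold aa bb kk
      ring
    refine ⟨bb ^ (a + 1) * aa ^ t *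
      (3 * X ^ 2 + 11 * X ^ 3 + 13 * X ^ 4 + 7 * X ^ 5 + X ^ 6), ?_⟩
    rw [e1, e3]
    calc bb ^ a * (aa ^ (t + 3) * bb) = bb ^ (a + 1) * aa ^ t * aa ^ 3 := by ring
      _ = _ := by
          rw [key]
          ring
  · obtain ⟨t, ht⟩ : ∃ t, 2 * k + 1 = n + (3 * t + 11) := ⟨(2 * k + 1 - n - 11) / 3, by omega⟩
    have e1 : UU (n - 4) (k - 6) = bb ^ (a + 2) * (aa ^ (t + 1) + dd (3 * t + 3)) := by
      rw [UU_cl (j := 3 * t + 3) (by omega) (by omega),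
        show gg (3 * t + 3) = aa ^ (t + 1) by rw [show 3 * t + 3 = 3 * (t + 1) by ring, gg_c0],
        show n - 4 - 1 - (k - 6) = a + 2 by omega]
    have e3 : PP n k = bb ^ a * (aa ^ (t + 3) * (1 + 2 * X)) := by
      rw [PP_cl (j := 3 * t + 11) (by omega) (by omega),
        show 3 * t + 11 = 3 * (t + 3) + 2 by ring, gg_c2, show n - 1 - k = a by omega]
    rcases Nat.lt_or_ge t 2 with ht2 | ht2
    · have key : aa ^ 2 * (1 + 2 * X) = kk * bb ^ 2 +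
          (3 * X ^ 2 + 7 * X ^ 3 + 4 * X ^ 4 + X ^ 5) := by
        unfold aa bb kk
        ring
      refine ⟨bb ^ a * aa ^ (t + 1) * (3 * X ^ 2 + 7 * X ^ 3 + 4 * X ^ 4 + X ^ 5), ?_⟩
      rw [e1, e3, dd_z (by omega)]
      calc bb ^ a * (aa ^ (t + 3) * (1 + 2 * X)) =
            bb ^ a * aa ^ (t + 1) * (aa ^ 2 * (1 + 2 * X)) := by ring
        _ = _ := by
            rw [key]
            ring
    · obtain ⟨s, rfl⟩ : ∃ s, t = s + 2 := ⟨t - 2, by omega⟩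
      have key : aa ^ 5 * (1 + 2 * X) = kk * bb ^ 2 * (aa ^ 3 + X ^ 5) +
          (3 * X ^ 2 + 34 * X ^ 3 + 157 * X ^ 4 + 381 * X ^ 5 + 526 * X ^ 6 + 427 * X ^ 7 +
            210 * X ^ 8 + 64 * X ^ 9 + 12 * X ^ 10 + X ^ 11) := by
        unfold aa bb kk
        ring
      refine ⟨bb ^ a * aa ^ s *
        (3 * X ^ 2 + 34 * X ^ 3 + 157 * X ^ 4 + 381 * X ^ 5 + 526 * X ^ 6 + 427 * X ^ 7 +
          210 * X ^ 8 + 64 * X ^ 9 + 12 * X ^ 10 + X ^ 11), ?_⟩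
      rw [e1, e3, show 3 * (s + 2) + 3 = 3 * s + 9 by ring, dd_c]
      calc bb ^ a * (aa ^ (s + 2 + 3) * (1 + 2 * X)) =
            bb ^ a * aa ^ s * (aa ^ 5 * (1 + 2 * X)) := by ring
        _ = _ := by
            rw [key]
            ring

/-- Proof. `x = 3 t + 9`, `a = n - 1 - k`: `PP (n - 4) (k - 6) = bb ^ (a + 2) * aa ^ t * bb`,
`UU n k = bb ^ a * (aa ^ (t + 3) + X ^ 5 * aa ^ t)`; the difference is `bb ^ a * aa ^ t` times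
`2 X^2 + 4 X^3`. -/
theorem kk_PP {n k : ℕ} (h : n + 8 ≤ 2 * k) (hk : k < n) (h3 : (2 * k + 1 - n) % 3 = 0) :
    Le (kk * PP (n - 4) (k - 6)) (UU n k) := by
  obtain ⟨a, ha⟩ : ∃ a, n = k + 1 + a := ⟨n - 1 - k, by omega⟩
  obtain ⟨t, ht⟩ : ∃ t, 2 * k + 1 = n + (3 * t + 9) := ⟨(2 * k + 1 - n - 9) / 3, by omega⟩
  have e1 : PP (n - 4) (k - 6) = bb ^ (a + 2) * (aa ^ t * bb) := by
    rw [PP_cl (j := 3 * t + 1) (by omega) (by omega), gg_c1,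
      show n - 4 - 1 - (k - 6) = a + 2 by omega]
  have e3 : UU n k = bb ^ a * (aa ^ (t + 3) + X ^ 5 * aa ^ t) := by
    rw [UU_cl (j := 3 * t + 9) (by omega) (by omega), dd_c,
      show 3 * t + 9 = 3 * (t + 3) by ring, gg_c0, show n - 1 - k = a by omega]
  have key : aa ^ 3 + X ^ 5 = kk * bb ^ 3 + (2 * X ^ 2 + 4 * X ^ 3) := by
    unfold aa bb kk
    ring
  refine ⟨bb ^ a * aa ^ t * (2 * X ^ 2 + 4 * X ^ 3), ?_⟩
  rw [e1, e3]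
  calc bb ^ a * (aa ^ (t + 3) + X ^ 5 * aa ^ t) = bb ^ a * aa ^ t * (aa ^ 3 + X ^ 5) := by ring
    _ = _ := by
        rw [key]
        ring

end Pool.Agent.Lib.H20WE
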