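import Pool.Agent.Lib.H20WE.D5
import Pool.Agent.Lib.H20WE.A3
import Pool.Agent.Lib.H20WE.B2
import Pool.Agent.Lib.H20WE.B6

/-! # D6: a triangle, `x % 3 = 2` -/

set_option autoImplicit false

namespace Pool.Agent.Lib.H20WE

open Finset Polynomial Pool.Agent.Lib.H20WD
open scoped Classical

variable {V : Type}

private theorem D6_nb (H : SimpleGraph V) {S : Finset V} {u v w : V} (hu : u ∈ S) (hw : w ∈ S)
    (hne : u ≠ w) (hvu : H.Adj v u) (hvw : H.Adj v w) (h2 : dg H S v = 2) :
    ∀ x ∈ S, H.Adj v x → x = u ∨ x = w := by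
  intro x hx hvx
  have hsub : ({u, w} : Finset V) ⊆ S.filter fun y => H.Adj v y := by
    intro y hy
    rw [mem_insert, mem_singleton] at hy
    rcases hy with rfl | rfl
    · exact mem_filter.2 ⟨hu, hvu⟩
    · exact mem_filter.2 ⟨hw, hvw⟩
  have hcard : #(S.filter fun y => H.Adj v y) ≤ #({u, w} : Finset V) := by
    rw [card_pair hne]
    exact h2.le
  have heq := eq_of_subset_of_card_le hsub hcard
  have hx' : x ∈ ({u, w} : Finset V) := by
    rw [heq]
    exact mem_filter.2 ⟨hx, hvx⟩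
  rwa [mem_insert, mem_singleton] at hx'

private theorem D6_nb3 (H : SimpleGraph V) {S : Finset V} {a b c d : V} (hb : b ∈ S) (hc : c ∈ S)
    (hd : d ∈ S) (hab : H.Adj a b) (hac : H.Adj a c) (had : H.Adj a d) (hbc : b ≠ c) (hbd : b ≠ d)
    (hcd : c ≠ d) (h : dg H S a = 3) (x : V) (hx : x ∈ S) (hadj : H.Adj a x) :
    x = b ∨ x = c ∨ x = d := by
  have hsub : ({b, c, d} : Finset V) ⊆ S.filter fun y => H.Adj a y := by
    intro y hy
    simp only [mem_insert, mem_singleton] at hy
    rcases hy with rfl | rfl | rfl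
    · exact mem_filter.2 ⟨hb, hab⟩
    · exact mem_filter.2 ⟨hc, hac⟩
    · exact mem_filter.2 ⟨hd, had⟩
  have hcard : #(S.filter fun y => H.Adj a y) ≤ #({b, c, d} : Finset V) := by
    rw [card_eq_three.2 ⟨b, c, d, hbc, hbd, hcd, rfl⟩]
    exact h.le
  have heq := eq_of_subset_of_card_le hsub hcard
  have hx' : x ∈ ({b, c, d} : Finset V) := by
    rw [heq]
    exact mem_filter.2 ⟨hx, hadj⟩
  simpa only [mem_insert, mem_singleton] using hx'

/-- Proof. `k = ec H S`, `x = 2 k + 1 - n ≥ 11`, `T = ((S.erase v).erase u).erase w`. The numbers of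
edges (`ec_erase`, `dg_erase`, see `E5_ec` in the file `H20WD.E5`): `S.erase v`: `k - 2`;
`(S.erase v).erase w`: `k - 1 - dg H S w ≤ k - 3`; `(S.erase v).erase u`: `k - 1 - dg H S u ≤ k - 4`;
`T`: `k + 1 - dg H S u - dg H S w ≤ k - 4`. `UU (n - 1) (k - 2)`, `UU (n - 2) (k - 3)`,
`UU (n - 2) (k - 4)` are `PP` (`UU_eq`), so `Ub.three`, `UU_mono` and `PP_three` do it if
`Ub H T (PP (n - 3) (k - 4))`. This is so if `T` has at most `k - 5` edges (`UU_lt`), or if `x < 14`
(`UU_eq`), or if `NoK H T` (`hN`).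
Otherwise `dg H S u = 3`, `dg H S w = 2`, `x ≥ 14`, `InK H T a` for some `a`. `NoK H (S.erase v)` by
`noK_erase` (`u` has degree two in `S.erase v`, `w` degree one), `NoK H ((S.erase v).erase w)` (there
`u` has degree one); `T` is this set without `u`, so `exists_adj_of_inK` gives `y` with `InK H T y`,
`H.Adj u y`, `dg H T y = 3`. `Ub.kite` with `p = UU (n - 3) (k - 4)`, `p' = UU (n - 4) (k - 7)` (for
`T.erase y`), and `UU_kite`. -/
theorem case_threeN2 {n : ℕ} (hU : ∀ m < n, BdU V m) (hN : ∀ m < n, BdN V m) {H : SimpleGraph V}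
    {S : Finset V} (hS : #S = n) (hk : ec H S < n) (hx : n + 8 ≤ 2 * ec H S) (hNK : NoK H S)
    {u v w : V} (hu : u ∈ S) (hv : v ∈ S) (hw : w ∈ S) (hvu : H.Adj v u) (hvw : H.Adj v w)
    (huw : H.Adj u w) (h2 : dg H S v = 2) (hdu : 3 ≤ dg H S u) (hdw : 2 ≤ dg H S w)
    (h3 : (2 * ec H S + 1 - n) % 3 = 2) : Ub H S (PP n (ec H S)) := by
  have hnb := D6_nb H hu hw huw.ne hvu hvw h2
  have hu1 : u ∈ S.erase v := mem_erase.2 ⟨hvu.symm.ne, hu⟩
  have hw1 : w ∈ S.erase v := mem_erase.2 ⟨hvw.symm.ne, hw⟩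
  have hw2 : w ∈ (S.erase v).erase u := mem_erase.2 ⟨huw.symm.ne, hw1⟩
  have hu2 : u ∈ (S.erase v).erase w := mem_erase.2 ⟨huw.ne, hu1⟩
  have e1 := ec_erase H hv
  have e2 := ec_erase H hu1
  have e3 := ec_erase H hw1
  have e4 := ec_erase H hw2
  have d1 := dg_erase H (S := S) hv hvu.symm
  have d2 := dg_erase H (S := S) hv hvw.symm
  have d3 := dg_erase H (S := S.erase v) hu1 huw.symm
  have d4 := dg_erase H (S := S.erase v) hw1 huw
  have c1 := card_erase_of_mem hv
  have c2 := card_erase_of_mem hu1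
  have c3 := card_erase_of_mem hw1
  have c4 := card_erase_of_mem hw2
  obtain ⟨k, hkk⟩ : ∃ k, k = ec H S := ⟨_, rfl⟩
  rw [← hkk] at e1 hk hx h3 ⊢
  have f1 : ec H (S.erase v) = k - 2 := by omega
  have hU1 : Ub H (S.erase v) (PP (n - 1) (k - 2)) := by
    have := hU (n - 1) (by omega) H (S.erase v) (by omega) (by omega)
    rwa [f1, UU_eq (by omega)] at this
  have hU2 : Ub H ((S.erase v).erase w) (PP (n - 2) (k - 3)) := by
    have := (hU (n - 2) (by omega) H ((S.erase v).erase w) (by omega) (by omega)).mono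
      (UU_mono (k' := k - 3) (by omega) (by omega))
    rwa [UU_eq (by omega)] at this
  have hU3 : Ub H ((S.erase v).erase u) (PP (n - 2) (k - 4)) := by
    have := (hU (n - 2) (by omega) H ((S.erase v).erase u) (by omega) (by omega)).mono
      (UU_mono (k' := k - 4) (by omega) (by omega))
    rwa [UU_eq (by omega)] at this
  have main : Ub H (((S.erase v).erase u).erase w) (PP (n - 3) (k - 4)) → Ub H S (PP n k) := by
    intro hU4
    refine (Ub.three hu hv hw hvu hvw huw hnb hU1 hU2 hU3 hU4).mono ?_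
    refine Le.trans (Le.of_eq ?_) (PP_three (by omega) hk)
    ring
  have hT : Ub H (((S.erase v).erase u).erase w) (UU (n - 3) (k - 4)) :=
    (hU (n - 3) (by omega) H _ (by omega) (by omega)).mono (UU_mono (by omega) (by omega))
  by_cases hlt : ec H (((S.erase v).erase u).erase w) < k - 4
  · exact main ((hU (n - 3) (by omega) H _ (by omega) (by omega)).mono
      (UU_lt hlt (by omega)))
  by_cases hx14 : 2 * k + 1 - n < 14
  · refine main ?_
    rwa [UU_eq (by omega)] at hT
  by_cases hNT : NoK H (((S.erase v).erase u).erase w)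
  · exact main ((hN (n - 3) (by omega) H _ (by omega) (by omega) hNT).mono
      (PP_mono (by omega) (by omega)))
  have hex : ∃ a, InK H (((S.erase v).erase u).erase w) a := by
    by_contra hcon
    exact hNT fun a ha => hcon ⟨a, ha⟩
  obtain ⟨a, ha⟩ := hex
  have gu : dg H S u = 3 := by omega
  have gw : dg H S w = 2 := by omega
  have hnw := D6_nb H hv hu hvu.ne hvw.symm huw.symm gw
  have hN1 : NoK H (S.erase v) := by
    refine noK_erase hNK fun y hvy hy => ?_
    have hyd := hy.dg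
    rcases hnb y (mem_erase.1 hy.mem).2 hvy with rfl | rfl
    · omega
    · omega
  have hN2 : NoK H ((S.erase v).erase w) := by
    refine noK_erase hN1 fun y hwy hy => ?_
    have hyd := hy.dg
    have hym := mem_erase.1 (mem_erase.1 hy.mem).2
    rcases hnw y hym.2 hwy with rfl | rfl
    · exact hym.1 rfl
    · omega
  have ha' : InK H (((S.erase v).erase w).erase u) a := by
    rw [erase_right_comm]
    exact ha
  obtain ⟨y, hy, huy⟩ := exists_adj_of_inK hN2 ha'
  rw [erase_right_comm] at hy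
  have hym := hy.mem
  have hyd := hy.dg
  have hyS : y ∈ S := (mem_erase.1 (mem_erase.1 (mem_erase.1 hym).2).2).2
  have hyw : y ≠ w := (mem_erase.1 hym).1
  have hyv : y ≠ v := (mem_erase.1 (mem_erase.1 (mem_erase.1 hym).2).2).1
  have hnu := D6_nb3 H hv hw hyS hvu.symm huw huy hvw.ne hyv.symm hyw.symm gu
  have e5 := ec_erase H hym
  have c5 := card_erase_of_mem hym
  have hT' : Ub H ((((S.erase v).erase u).erase w).erase y) (UU (n - 4) (k - 7)) :=
    (hU (n - 4) (by omega) H _ (by omega) (by omega)).mono (UU_mono (by omega) (by omega))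
  exact (Ub.kite hu hv hw hvu hvw huw hnb hnw hym huy hnu hT hT').mono
    (UU_kite (by omega) hk h3)

end Pool.Agent.Lib.H20WE
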