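import Pool.Agent.Lib.H20WE.Defs

/-! # B7: a vertex of degree three -/

set_option autoImplicit false

namespace Pool.Agent.Lib.H20WE

open Finset Polynomial Pool.Agent.Lib.H20WD
open scoped Classical

/-- Proof. `x = 2 k + 1 - n`, `a = n - 1 - k`; `UU (n - 1) (k - 3)` has `x - 5` and `bb ^ (a + 2)`,
`UU (n - 1) (k - 4)` has `x - 7` and `bb ^ (a + 3)`, `UU (n - 1) (k - 5)` has `x - 9` and
`bb ^ (a + 4)`.
`x = 3 t + 9`: `bb ^ (a + 2) * aa ^ (t + 1) * bb`, `bb ^ (a + 3) * aa ^ t * (1 + 2 X)`,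
`bb ^ (a + 4) * (aa ^ t + dd (3 t))`, `PP n k = bb ^ a * aa ^ (t + 3)`. Without `dd` the difference is
`bb ^ a * aa ^ t * D`, `D = 3 X^2 + 8 X^3 + 6 X^4 + 3 X^5 + X^6`; if `t = s + 3` it is
`bb ^ a * aa ^ s * (aa ^ 3 * D - X ^ 6 * bb ^ 4)`.
`x = 3 t + 10`: `bb ^ (a + 2) * aa ^ (t + 1) * (1 + 2 X)`, `bb ^ (a + 3) * (aa ^ (t + 1) + dd (3 t + 3))`,
`bb ^ (a + 4) * aa ^ t * bb`, `PP n k = bb ^ a * aa ^ (t + 3) * bb`. Without `dd` the difference is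
`bb ^ (a + 1) * aa ^ t * D`, `D = 4 X^2 + 14 X^3 + 14 X^4 + 6 X^5 + X^6`; if `t = s + 2`:
`bb ^ (a + 1) * aa ^ s * (aa ^ 2 * D - 2 X^6 * bb ^ 2)`.
`x = 3 t + 11`: `bb ^ (a + 2) * (aa ^ (t + 2) + dd (3 t + 6))`, `bb ^ (a + 3) * aa ^ (t + 1) * bb`,
`bb ^ (a + 4) * aa ^ t * (1 + 2 X)`, `PP n k = bb ^ a * aa ^ (t + 3) * (1 + 2 X)`. Without `dd` the
difference is `bb ^ a * aa ^ t * D`, `D = 4 X^2 + 19 X^3 + 28 X^4 + 14 X^5 + 2 X^6`; if `t = s + 1`: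
`bb ^ a * aa ^ s * (aa * D - X ^ 5 * bb ^ 2)`. -/
theorem UU_big3 {n k : ℕ} (h : n + 8 ≤ 2 * k) (hk : k < n) :
    Le (UU (n - 1) (k - 3) + X * (2 * UU (n - 1) (k - 4) + UU (n - 1) (k - 5))) (PP n k) := by
  obtain ⟨a, rfl⟩ : ∃ a, n = k + 1 + a := ⟨n - (k + 1), by omega⟩
  have hm : 2 * k + 1 - (k + 1 + a) = k - a := by omega
  obtain ⟨t, ht | ht | ht⟩ : ∃ t, k = a + (3 * t + 9) ∨ k = a + (3 * t + 10) ∨ k = a + (3 * t + 11) :=
    ⟨(k - a - 9) / 3, by omega⟩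
  · subst ht
    rw [UU_cl (j := 3 * (t + 1) + 1) (by omega) (by omega), UU_cl (j := 3 * t + 2) (by omega) (by omega),
      UU_cl (j := 3 * t) (by omega) (by omega), PP_cl (j := 3 * (t + 3)) (by omega) (by omega),
      gg_c1, gg_c2, gg_c0, gg_c0, dd_z (i := 3 * (t + 1) + 1) (by omega), dd_z (i := 3 * t + 2) (by omega)]
    rw [show a + (3 * t + 9) + 1 + a - 1 - 1 - (a + (3 * t + 9) - 3) = a + 2 by omega,
      show a + (3 * t + 9) + 1 + a - 1 - 1 - (a + (3 * t + 9) - 4) = a + 3 by omega,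
      show a + (3 * t + 9) + 1 + a - 1 - 1 - (a + (3 * t + 9) - 5) = a + 4 by omega,
      show a + (3 * t + 9) + 1 + a - 1 - (a + (3 * t + 9)) = a by omega]
    by_cases h3 : t < 3
    · rw [dd_z (i := 3 * t) (by omega)]
      refine ⟨bb ^ a * aa ^ t * (3 * X ^ 2 + 8 * X ^ 3 + 6 * X ^ 4 + 3 * X ^ 5 + X ^ 6), ?_⟩
      simp only [pow_add, pow_one]
      generalize bb ^ a = B
      generalize aa ^ t = A
      unfold aa bb
      ring
    · obtain ⟨s, rfl⟩ : ∃ s, t = s + 3 := ⟨t - 3, by omega⟩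
      rw [show 3 * (s + 3) = 3 * s + 9 by ring, dd_c]
      refine ⟨bb ^ a * aa ^ s * (3 * X ^ 2 + 35 * X ^ 3 + 168 * X ^ 4 + 432 * X ^ 5 + 657 * X ^ 6 + 632 * X ^ 7 + 414 * X ^ 8 + 193 * X ^ 9 + 62 * X ^ 10 + 12 * X ^ 11 + X ^ 12), ?_⟩
      simp only [pow_add, pow_one]
      generalize bb ^ a = B
      generalize aa ^ s = A
      unfold aa bb
      ring
  · subst ht
    rw [UU_cl (j := 3 * (t + 1) + 2) (by omega) (by omega), UU_cl (j := 3 * (t + 1)) (by omega) (by omega),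
      UU_cl (j := 3 * t + 1) (by omega) (by omega), PP_cl (j := 3 * (t + 3) + 1) (by omega) (by omega),
      gg_c2, gg_c0, gg_c1, gg_c1, dd_z (i := 3 * (t + 1) + 2) (by omega), dd_z (i := 3 * t + 1) (by omega)]
    rw [show a + (3 * t + 10) + 1 + a - 1 - 1 - (a + (3 * t + 10) - 3) = a + 2 by omega,
      show a + (3 * t + 10) + 1 + a - 1 - 1 - (a + (3 * t + 10) - 4) = a + 3 by omega,
      show a + (3 * t + 10) + 1 + a - 1 - 1 - (a + (3 * t + 10) - 5) = a + 4 by omega,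
      show a + (3 * t + 10) + 1 + a - 1 - (a + (3 * t + 10)) = a by omega]
    by_cases h3 : t < 2
    · rw [dd_z (i := 3 * (t + 1)) (by omega)]
      refine ⟨bb ^ (a + 1) * aa ^ t * (4 * X ^ 2 + 14 * X ^ 3 + 14 * X ^ 4 + 6 * X ^ 5 + X ^ 6), ?_⟩
      simp only [pow_add, pow_one]
      generalize bb ^ a = B
      generalize aa ^ t = A
      unfold aa bb
      ring
    · obtain ⟨s, rfl⟩ : ∃ s, t = s + 2 := ⟨t - 2, by omega⟩
      rw [show 3 * (s + 2 + 1) = 3 * s + 9 by ring, dd_c]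
      refine ⟨bb ^ (a + 1) * aa ^ s * (4 * X ^ 2 + 38 * X ^ 3 + 142 * X ^ 4 + 268 * X ^ 5 + 277 * X ^ 6 + 166 * X ^ 7 + 59 * X ^ 8 + 12 * X ^ 9 + X ^ 10), ?_⟩
      simp only [pow_add, pow_one]
      generalize bb ^ a = B
      generalize aa ^ s = A
      unfold aa bb
      ring
  · subst ht
    rw [UU_cl (j := 3 * (t + 2)) (by omega) (by omega), UU_cl (j := 3 * (t + 1) + 1) (by omega) (by omega),
      UU_cl (j := 3 * t + 2) (by omega) (by omega), PP_cl (j := 3 * (t + 3) + 2) (by omega) (by omega),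
      gg_c0, gg_c1, gg_c2, gg_c2, dd_z (i := 3 * (t + 1) + 1) (by omega), dd_z (i := 3 * t + 2) (by omega)]
    rw [show a + (3 * t + 11) + 1 + a - 1 - 1 - (a + (3 * t + 11) - 3) = a + 2 by omega,
      show a + (3 * t + 11) + 1 + a - 1 - 1 - (a + (3 * t + 11) - 4) = a + 3 by omega,
      show a + (3 * t + 11) + 1 + a - 1 - 1 - (a + (3 * t + 11) - 5) = a + 4 by omega,
      show a + (3 * t + 11) + 1 + a - 1 - (a + (3 * t + 11)) = a by omega]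
    by_cases h3 : t < 1
    · rw [dd_z (i := 3 * (t + 2)) (by omega)]
      refine ⟨bb ^ a * aa ^ t * (4 * X ^ 2 + 19 * X ^ 3 + 28 * X ^ 4 + 14 * X ^ 5 + 2 * X ^ 6), ?_⟩
      simp only [pow_add, pow_one]
      generalize bb ^ a = B
      generalize aa ^ t = A
      unfold aa bb
      ring
    · obtain ⟨s, rfl⟩ : ∃ s, t = s + 1 := ⟨t - 1, by omega⟩
      rw [show 3 * (s + 1 + 2) = 3 * s + 9 by ring, dd_c]
      refine ⟨bb ^ a * aa ^ s * (4 * X ^ 2 + 31 * X ^ 3 + 89 * X ^ 4 + 116 * X ^ 5 + 70 * X ^ 6 + 19 * X ^ 7 + 2 * X ^ 8), ?_⟩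
      simp only [pow_add, pow_one]
      generalize bb ^ a = B
      generalize aa ^ s = A
      unfold aa bb
      ring

end Pool.Agent.Lib.H20WE
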