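import Pool.Agent.Lib.H20WE.B8

/-! # B9: a vertex of degree four -/

set_option autoImplicit false

namespace Pool.Agent.Lib.H20WE

open Finset Polynomial Pool.Agent.Lib.H20WD
open scoped Classical

/-- Proof. `x = 2 k + 1 - n ≥ 16`, `a = n - 1 - k`; `PhiU n k 4 = m0 + X * (m0 + m1 + m2 + m3)` with
`m0 = UU (n - 1) (k - 4) = bb ^ (a + 3) * (gg (x - 7) + dd (x - 7))`,
`m1 = UU (n - 1) (k - 5) = bb ^ (a + 4) * (gg (x - 9) + dd (x - 9))`,
`m2 = UU (n - 1) (k - 6) = bb ^ (a + 5) * (gg (x - 11) + dd (x - 11))`,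
`m3 = UU (n - 1) (k - 7) = bb ^ (a + 6) * (gg (x - 13) + dd (x - 13))`, `PP n k = bb ^ a * gg x`.
`x = 3 t + 16`: only `dd (3 t + 9) = X ^ 5 * aa ^ t` and `dd (3 t + 3)` matter. Without `dd (3 t + 3)` the
difference is `bb ^ a * aa ^ t * D`,
`D = 8 X^2 + 75 X^3 + 289 X^4 + 598 X^5 + 734 X^6 + 561 X^7 + 272 X^8 + 82 X^9 + 14 X^10 + X^11`; for
`t = s + 2` it is `bb ^ a * aa ^ s * (aa ^ 2 * D - X ^ 6 * bb ^ 6)`.
`x = 3 t + 17`: only `dd (3 t + 6)` matters. Without it the difference is `bb ^ a * aa ^ t * D`,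
`D = 7 X^2 + 70 X^3 + 287 X^4 + 625 X^5 + 787 X^6 + 593 X^7 + 274 X^8 + 78 X^9 + 13 X^10 + X^11`; for
`t = s + 1` it is `bb ^ a * aa ^ s * (aa * D - X ^ 6 * bb ^ 5)`.
`x = 3 t + 18`: only `dd (3 t + 9) = X ^ 5 * aa ^ t` (in `m1`) matters; the difference is
`bb ^ a * aa ^ t` times
`7 X^2 + 77 X^3 + 353 X^4 + 880 X^5 + 1314 X^6 + 1237 X^7 + 764 X^8 + 316 X^9 + 86 X^10 + 14 X^11 + X^12`. -/
theorem PhiU_four {n k : ℕ} (h : n + 15 ≤ 2 * k) (hk : k < n) : Le (PhiU n k 4) (PP n k) := by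
  obtain ⟨a, rfl⟩ : ∃ a, n = k + 1 + a := ⟨n - (k + 1), by omega⟩
  have hphi : PhiU (k + 1 + a) k 4 = UU (k + 1 + a - 1) (k - 4) + X * (UU (k + 1 + a - 1) (k - 4) +
      UU (k + 1 + a - 1) (k - 5) + UU (k + 1 + a - 1) (k - 6) + UU (k + 1 + a - 1) (k - 7)) := by
    unfold PhiU
    rw [Finset.sum_range_succ, Finset.sum_range_succ, Finset.sum_range_succ, Finset.sum_range_one,
      show k - 4 - 0 = k - 4 by omega, show k - 4 - 1 = k - 5 by omega, show k - 4 - 2 = k - 6 by omega,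
      show k - 4 - 3 = k - 7 by omega]
  rw [hphi]
  obtain ⟨t, ht | ht | ht⟩ : ∃ t, k = a + (3 * t + 16) ∨ k = a + (3 * t + 17) ∨ k = a + (3 * t + 18) :=
    ⟨(k - a - 16) / 3, by omega⟩
  · subst ht
    rw [UU_cl (k := a + (3 * t + 16) - 4) (j := 3 * t + 9) (by omega) (by omega),
      UU_cl (k := a + (3 * t + 16) - 5) (j := 3 * (t + 2) + 1) (by omega) (by omega),
      UU_cl (k := a + (3 * t + 16) - 6) (j := 3 * (t + 1) + 2) (by omega) (by omega),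
      UU_cl (k := a + (3 * t + 16) - 7) (j := 3 * (t + 1)) (by omega) (by omega),
      PP_cl (j := 3 * (t + 5) + 1) (by omega) (by omega),
      gg_c1, gg_c2, gg_c0, gg_c1, dd_c, dd_z (i := 3 * (t + 2) + 1) (by omega), dd_z (i := 3 * (t + 1) + 2) (by omega),
      show gg (3 * t + 9) = aa ^ (t + 3) by rw [show 3 * t + 9 = 3 * (t + 3) by ring, gg_c0]]
    rw [show a + (3 * t + 16) + 1 + a - 1 - 1 - (a + (3 * t + 16) - 4) = a + 3 by omega,
      show a + (3 * t + 16) + 1 + a - 1 - 1 - (a + (3 * t + 16) - 5) = a + 4 by omega,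
      show a + (3 * t + 16) + 1 + a - 1 - 1 - (a + (3 * t + 16) - 6) = a + 5 by omega,
      show a + (3 * t + 16) + 1 + a - 1 - 1 - (a + (3 * t + 16) - 7) = a + 6 by omega,
      show a + (3 * t + 16) + 1 + a - 1 - (a + (3 * t + 16)) = a by omega]
    by_cases h3 : t < 2
    · rw [dd_z (i := 3 * (t + 1)) (by omega)]
      refine ⟨bb ^ a * aa ^ t * (8 * X ^ 2 + 75 * X ^ 3 + 289 * X ^ 4 + 598 * X ^ 5 + 734 * X ^ 6 + 561 * X ^ 7 + 272 * X ^ 8 + 82 * X ^ 9 + 14 * X ^ 10 + X ^ 11), ?_⟩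
      simp only [pow_add, pow_one]
      generalize bb ^ a = B
      generalize aa ^ t = A
      unfold aa bb
      ring
    · obtain ⟨s, rfl⟩ : ∃ s, t = s + 2 := ⟨t - 2, by omega⟩
      rw [show 3 * (s + 2 + 1) = 3 * s + 9 by ring, dd_c]
      refine ⟨bb ^ a * aa ^ s * (8 * X ^ 2 + 123 * X ^ 3 + 827 * X ^ 4 + 3205 * X ^ 5 + 7958 * X ^ 6 + 13346 * X ^ 7 + 15574 * X ^ 8 + 12867 * X ^ 9 + 7583 * X ^ 10 + 3174 * X ^ 11 + 923 * X ^ 12 + 177 * X ^ 13 + 20 * X ^ 14 + X ^ 15), ?_⟩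
      simp only [pow_add, pow_one]
      generalize bb ^ a = B
      generalize aa ^ s = A
      unfold aa bb
      ring
  · subst ht
    rw [UU_cl (k := a + (3 * t + 17) - 4) (j := 3 * (t + 3) + 1) (by omega) (by omega),
      UU_cl (k := a + (3 * t + 17) - 5) (j := 3 * (t + 2) + 2) (by omega) (by omega),
      UU_cl (k := a + (3 * t + 17) - 6) (j := 3 * (t + 2)) (by omega) (by omega),
      UU_cl (k := a + (3 * t + 17) - 7) (j := 3 * (t + 1) + 1) (by omega) (by omega),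
      PP_cl (j := 3 * (t + 5) + 2) (by omega) (by omega),
      gg_c1, gg_c2, gg_c0, gg_c1, gg_c2, dd_z (i := 3 * (t + 3) + 1) (by omega), dd_z (i := 3 * (t + 2) + 2) (by omega),
      dd_z (i := 3 * (t + 1) + 1) (by omega)]
    rw [show a + (3 * t + 17) + 1 + a - 1 - 1 - (a + (3 * t + 17) - 4) = a + 3 by omega,
      show a + (3 * t + 17) + 1 + a - 1 - 1 - (a + (3 * t + 17) - 5) = a + 4 by omega,
      show a + (3 * t + 17) + 1 + a - 1 - 1 - (a + (3 * t + 17) - 6) = a + 5 by omega,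
      show a + (3 * t + 17) + 1 + a - 1 - 1 - (a + (3 * t + 17) - 7) = a + 6 by omega,
      show a + (3 * t + 17) + 1 + a - 1 - (a + (3 * t + 17)) = a by omega]
    by_cases h3 : t < 1
    · rw [dd_z (i := 3 * (t + 2)) (by omega)]
      refine ⟨bb ^ a * aa ^ t * (7 * X ^ 2 + 70 * X ^ 3 + 287 * X ^ 4 + 625 * X ^ 5 + 787 * X ^ 6 + 593 * X ^ 7 + 274 * X ^ 8 + 78 * X ^ 9 + 13 * X ^ 10 + X ^ 11), ?_⟩
      simp only [pow_add, pow_one]
      generalize bb ^ a = B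
      generalize aa ^ t = A
      unfold aa bb
      ring
    · obtain ⟨s, rfl⟩ : ∃ s, t = s + 1 := ⟨t - 1, by omega⟩
      rw [show 3 * (s + 1 + 2) = 3 * s + 9 by ring, dd_c]
      refine ⟨bb ^ a * aa ^ s * (7 * X ^ 2 + 91 * X ^ 3 + 504 * X ^ 4 + 1556 * X ^ 5 + 2948 * X ^ 6 + 3574 * X ^ 7 + 2830 * X ^ 8 + 1483 * X ^ 9 + 516 * X ^ 10 + 117 * X ^ 11 + 16 * X ^ 12 + X ^ 13), ?_⟩
      simp only [pow_add, pow_one]
      generalize bb ^ a = B
      generalize aa ^ s = A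
      unfold aa bb
      ring
  · subst ht
    rw [UU_cl (k := a + (3 * t + 18) - 4) (j := 3 * (t + 3) + 2) (by omega) (by omega),
      UU_cl (k := a + (3 * t + 18) - 5) (j := 3 * t + 9) (by omega) (by omega),
      UU_cl (k := a + (3 * t + 18) - 6) (j := 3 * (t + 2) + 1) (by omega) (by omega),
      UU_cl (k := a + (3 * t + 18) - 7) (j := 3 * (t + 1) + 2) (by omega) (by omega),
      PP_cl (j := 3 * (t + 6)) (by omega) (by omega),
      gg_c2, gg_c1, gg_c2, gg_c0, dd_c, dd_z (i := 3 * (t + 3) + 2) (by omega), dd_z (i := 3 * (t + 2) + 1) (by omega),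
      dd_z (i := 3 * (t + 1) + 2) (by omega),
      show gg (3 * t + 9) = aa ^ (t + 3) by rw [show 3 * t + 9 = 3 * (t + 3) by ring, gg_c0]]
    rw [show a + (3 * t + 18) + 1 + a - 1 - 1 - (a + (3 * t + 18) - 4) = a + 3 by omega,
      show a + (3 * t + 18) + 1 + a - 1 - 1 - (a + (3 * t + 18) - 5) = a + 4 by omega,
      show a + (3 * t + 18) + 1 + a - 1 - 1 - (a + (3 * t + 18) - 6) = a + 5 by omega,
      show a + (3 * t + 18) + 1 + a - 1 - 1 - (a + (3 * t + 18) - 7) = a + 6 by omega,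
      show a + (3 * t + 18) + 1 + a - 1 - (a + (3 * t + 18)) = a by omega]
    · refine ⟨bb ^ a * aa ^ t * (7 * X ^ 2 + 77 * X ^ 3 + 353 * X ^ 4 + 880 * X ^ 5 + 1314 * X ^ 6 + 1237 * X ^ 7 + 764 * X ^ 8 + 316 * X ^ 9 + 86 * X ^ 10 + 14 * X ^ 11 + X ^ 12), ?_⟩
      simp only [pow_add, pow_one]
      generalize bb ^ a = B
      generalize aa ^ t = A
      unfold aa bb
      ring

theorem PhiU_le {n k d : ℕ} (hd : 4 ≤ d) (hx : n + d ^ 2 ≤ 2 * k + 1) (hk : k < n) :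
    Le (PhiU n k d) (PP n k) := by
  induction d, hd using Nat.le_induction with
  | base => exact PhiU_four (by omega) hk
  | succ d hd ih =>
    refine (PhiU_succ hd hx hk).trans (ih ?_)
    have h1 : d ^ 2 ≤ (d + 1) ^ 2 := Nat.pow_le_pow_left (Nat.le_succ d) 2
    omega

end Pool.Agent.Lib.H20WE
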