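import Pool.Agent.Lib.H20WE.A6
import Pool.Agent.Lib.H20WE.A7
import Pool.Agent.Lib.H20WE.B7
import Pool.Agent.Lib.H20WE.B9

/-! # D7: a vertex of degree at least three -/

set_option autoImplicit false

namespace Pool.Agent.Lib.H20WE

open Finset Polynomial Pool.Agent.Lib.H20WD
open scoped Classical

variable {V : Type}

/-- Proof. `n = m + 1`. `dg H S v = 3`: `peel_three` and `UU_big3`. `dg H S v ≥ 4`: `peelU` with
`j = d = dg H S v`, and `PhiU_le` (unfold `PhiU`). -/
theorem case_bigN {n : ℕ} (hU : ∀ m < n, BdU V m) {H : SimpleGraph V} {S : Finset V} {v : V}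
    (hv : v ∈ S) (hS : #S = n) (hk : ec H S < n) (hNK : NoK H S) (hd : 3 ≤ dg H S v)
    (h : ∀ u ∈ S, H.Adj v u → dg H S v ≤ dg H S u)
    (hx : n + dg H S v ^ 2 ≤ 2 * ec H S + 1) : Ub H S (PP n (ec H S)) := by
  have hpos : 0 < n := by
    rw [← hS]
    exact card_pos.2 ⟨v, hv⟩
  obtain ⟨m, rfl⟩ : ∃ m, n = m + 1 := ⟨n - 1, by omega⟩
  have hB : BdU V m := hU m (Nat.lt_succ_self m)
  rcases Nat.lt_or_ge 3 (dg H S v) with h4 | h3
  · have h1 := peelU hB (dg H S v) (dg H S v) H S v hv hS rfl le_rfl h (by omega)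
    have h2 := PhiU_le (n := m + 1) (k := ec H S) (d := dg H S v) h4 hx hk
    exact Ub.mono h1 h2
  · have hd3 : dg H S v = 3 := le_antisymm h3 hd
    have h1 := peel_three hB hv hS hk hd3 (fun u hu hadj => by
      have := h u hu hadj
      omega) (hNK v)
    have h2 := UU_big3 (n := m + 1) (k := ec H S) (by rw [hd3] at hx; omega) hk
    exact Ub.mono h1 h2

end Pool.Agent.Lib.H20WE
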