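import Pool.Agent.Lib.H20WE.A2
import Pool.Agent.Lib.H20WE.A3
import Pool.Agent.Lib.H20WE.B6

/-! # D8: a component `K_4` -/

set_option autoImplicit false

namespace Pool.Agent.Lib.H20WE

open Finset Polynomial Pool.Agent.Lib.H20WD
open scoped Classical

variable {V : Type}

/-- Proof. `IsK.card`: the rest has `n - 4` vertices and `ec H S - 6` edges: `hU (n - 4)`, `Ub.k4`. -/
theorem ub_K {n : ℕ} (hU : ∀ m < n, BdU V m) {H : SimpleGraph V} {S : Finset V} (hS : #S = n)
    (hk : ec H S < n) {a : V} (ha : InK H S a) : Ub H S (kk * UU (n - 4) (ec H S - 6)) := by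
  obtain ⟨b, c, d, hK⟩ := ha
  obtain ⟨h1, h2⟩ := hK.card
  have e1 : n - 4 = #((((S.erase a).erase b).erase c).erase d) := by omega
  have e2 : ec H S - 6 = ec H ((((S.erase a).erase b).erase c).erase d) := by omega
  refine Ub.k4 hK ?_
  rw [e2]
  exact hU (n - 4) (by omega) H _ e1.symm (by omega)

/-- Proof. `ub_K`. `x = 2 k + 1 - n`. If `x % 3 = 0`: `UU (n - 4) (k - 6)` is `PP` (`UU_eq`, `x - 8`), and
`kk_PP`. If not: `kk_UU`, `PP_le_UU`. -/
theorem case_K {n : ℕ} (hU : ∀ m < n, BdU V m) {H : SimpleGraph V} {S : Finset V} (hS : #S = n)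
    (hk : ec H S < n) (hx : n + 8 ≤ 2 * ec H S) {a : V} (ha : InK H S a) :
    Ub H S (UU n (ec H S)) := by
  have h1 := ub_K hU hS hk ha
  by_cases h3 : (2 * ec H S + 1 - n) % 3 = 0
  · rw [UU_eq (n := n - 4) (k := ec H S - 6) (by omega)] at h1
    exact h1.mono (kk_PP hx hk h3)
  · exact (h1.mono (kk_UU hx hk h3)).mono (PP_le_UU _ _)

end Pool.Agent.Lib.H20WE
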