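import Pool.Agent.Lib.H20WE.D1
import Pool.Agent.Lib.H20WE.D2
import Pool.Agent.Lib.H20WE.D3
import Pool.Agent.Lib.H20WE.D4
import Pool.Agent.Lib.H20WE.D6
import Pool.Agent.Lib.H20WE.D7
import Pool.Agent.Lib.H20WE.D8
import Pool.Agent.Lib.H20WE.D10
import Pool.Agent.Lib.H20WE.A5
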