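import Pool.Agent.Lib.H20WE.Defs

/-! # B3: a pendant vertex -/

set_option autoImplicit false

namespace Pool.Agent.Lib.H20WE

open Finset Polynomial Pool.Agent.Lib.H20WD
open scoped Classical

/-- Proof. `x = 2 k + 1 - n`. If `x % 3 = 0` or `x < 10`: both `UU` are `PP` (`UU_eq`): `PP_pend`.
Otherwise `x = 3 t + 10`, `a = n - 1 - k` (`UU_cl`, `PP_cl`, closed forms):
`UU (n - 1) (k - 1) = bb ^ a * (aa ^ (t + 3) + X ^ 5 * aa ^ t)`,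
`UU (n - 2) (k - 2) = PP (n - 2) (k - 2) = bb ^ a * aa ^ (t + 2) * (1 + 2 X)`,
`PP n k = bb ^ a * aa ^ (t + 3) * bb`; the difference is `bb ^ a * aa ^ t` times
`X^2 + 7 X^3 + 17 X^4 + 16 X^5 + 7 X^6 + X^7`. -/
theorem UU_pend {n k : ℕ} (h : n + 1 ≤ 2 * k) (hk : k < n) (h3 : (2 * k + 1 - n) % 3 ≠ 2) :
    Le (UU (n - 1) (k - 1) + X * UU (n - 2) (k - 2)) (PP n k) := by
  by_cases hx : 2 * k + 1 - n < 10 ∨ (2 * k + 1 - n) % 3 = 0
  · have e1 : UU (n - 1) (k - 1) = PP (n - 1) (k - 1) := UU_eq (by omega)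
    have e2 : UU (n - 2) (k - 2) = PP (n - 2) (k - 2) := UU_eq (by omega)
    rw [e1, e2]
    exact PP_pend h hk
  · obtain ⟨t, ht⟩ : ∃ t, 2 * k + 1 = n + (3 * t + 10) := ⟨(2 * k + 1 - n - 10) / 3, by omega⟩
    have e1 : UU (n - 1) (k - 1) = bb ^ (n - 1 - k) * (aa ^ (t + 3) + X ^ 5 * aa ^ t) := by
      rw [UU_cl (n := n - 1) (k := k - 1) (j := 3 * t + 9) (by omega) (by omega), dd_c,
        show 3 * t + 9 = 3 * (t + 3) by ring, gg_c0, show n - 1 - 1 - (k - 1) = n - 1 - k by omega]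
    have e2 : UU (n - 2) (k - 2) = bb ^ (n - 1 - k) * (aa ^ (t + 2) * (1 + 2 * X)) := by
      rw [UU_eq (by omega), PP_cl (n := n - 2) (k := k - 2) (j := 3 * t + 8) (by omega) (by omega),
        show 3 * t + 8 = 3 * (t + 2) + 2 by ring, gg_c2,
        show n - 2 - 1 - (k - 2) = n - 1 - k by omega]
    have e3 : PP n k = bb ^ (n - 1 - k) * (aa ^ (t + 3) * bb) := by
      rw [PP_cl ht hk, show 3 * t + 10 = 3 * (t + 3) + 1 by ring, gg_c1]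
    refine ⟨bb ^ (n - 1 - k) * aa ^ t *
      (X ^ 2 + 7 * X ^ 3 + 17 * X ^ 4 + 16 * X ^ 5 + 7 * X ^ 6 + X ^ 7), ?_⟩
    rw [e1, e2, e3, pow_add aa t 3, pow_add aa t 2]
    generalize aa ^ t = A
    generalize bb ^ (n - 1 - k) = B
    unfold aa bb
    ring

/-- Proof. `x = 3 t + 11`, `a = n - 1 - k`: `UU (n - 2) (k - 2) = bb ^ a * (aa ^ (t + 3) + X ^ 5 * aa ^ t)`,
`UU (n - 3) (k - 5) = bb ^ (a + 2) * aa ^ (t + 1) * bb` (`UU_eq`, `x - 7 = 3 t + 4`),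
`PP n k = bb ^ a * aa ^ (t + 3) * (1 + 2 X)`; the difference is `bb ^ a * aa ^ t` times
`3 X^2 + 17 X^3 + 32 X^4 + 23 X^5 + 7 X^6 + X^7`. -/
theorem UU_pend2 {n k : ℕ} (h : n + 10 ≤ 2 * k) (hk : k < n) (h3 : (2 * k + 1 - n) % 3 = 2) :
    Le (bb * UU (n - 2) (k - 2) + X * UU (n - 3) (k - 5)) (PP n k) := by
  obtain ⟨t, ht⟩ : ∃ t, 2 * k + 1 = n + (3 * t + 11) := ⟨(2 * k + 1 - n - 11) / 3, by omega⟩
  have e1 : UU (n - 2) (k - 2) = bb ^ (n - 1 - k) * (aa ^ (t + 3) + X ^ 5 * aa ^ t) := by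
    rw [UU_cl (n := n - 2) (k := k - 2) (j := 3 * t + 9) (by omega) (by omega), dd_c,
      show 3 * t + 9 = 3 * (t + 3) by ring, gg_c0, show n - 2 - 1 - (k - 2) = n - 1 - k by omega]
  have e2 : UU (n - 3) (k - 5) = bb ^ (n - 1 - k + 2) * (aa ^ (t + 1) * bb) := by
    rw [UU_eq (by omega), PP_cl (n := n - 3) (k := k - 5) (j := 3 * t + 4) (by omega) (by omega),
      show 3 * t + 4 = 3 * (t + 1) + 1 by ring, gg_c1,
      show n - 3 - 1 - (k - 5) = n - 1 - k + 2 by omega]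
  have e3 : PP n k = bb ^ (n - 1 - k) * (aa ^ (t + 3) * (1 + 2 * X)) := by
    rw [PP_cl ht hk, show 3 * t + 11 = 3 * (t + 3) + 2 by ring, gg_c2]
  refine ⟨bb ^ (n - 1 - k) * aa ^ t *
    (3 * X ^ 2 + 17 * X ^ 3 + 32 * X ^ 4 + 23 * X ^ 5 + 7 * X ^ 6 + X ^ 7), ?_⟩
  rw [e1, e2, e3, pow_add aa t 3, pow_add aa t 1, pow_add bb (n - 1 - k) 2]
  generalize aa ^ t = A
  generalize bb ^ (n - 1 - k) = B
  unfold aa bb
  ring

end Pool.Agent.Lib.H20WE
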