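import Pool.Agent.Lib.H20WE.B2

/-! # B8: the step from `d` to `d + 1` -/

set_option autoImplicit false

namespace Pool.Agent.Lib.H20WE

open Finset Polynomial Pool.Agent.Lib.H20WD
open scoped Classical

/-- The bound from the removal of the edges at a vertex of degree `d`. -/
noncomputable def PhiU (n k d : ℕ) : ℕ[X] :=
  UU (n - 1) (k - d) + X * ∑ i ∈ range d, UU (n - 1) (k - d - i)

private theorem B8_case0 (t : ℕ) :
    Le (bb * (gg (3 * t + 8) + dd (3 * t + 8)) + X * (bb ^ 5 * (gg (3 * t) + dd (3 * t))))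
      (gg (3 * t + 10) + dd (3 * t + 10)) := by
  have e1 : gg (3 * t + 8) = aa ^ (t + 2) * (1 + 2 * X) := by
    rw [show 3 * t + 8 = 3 * (t + 2) + 2 by ring, gg_c2]
  have e2 : gg (3 * t + 10) = aa ^ (t + 3) * bb := by
    rw [show 3 * t + 10 = 3 * (t + 3) + 1 by ring, gg_c1]
  have d1 : dd (3 * t + 8) = 0 := dd_z (Or.inr (by omega))
  have d2 : dd (3 * t + 10) = 0 := dd_z (Or.inr (by omega))
  rw [e1, e2, d1, d2, gg_c0]
  rcases Nat.lt_or_ge t 3 with ht | ht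
  · have d3 : dd (3 * t) = 0 := dd_z (Or.inl (by omega))
    rw [d3]
    refine ⟨aa ^ t * (3 * X ^ 2 + 14 * X ^ 3 + 24 * X ^ 4 + 19 * X ^ 5 + 7 * X ^ 6 + X ^ 7), ?_⟩
    unfold bb
    rw [pow_add, pow_add]
    generalize aa ^ t = A
    unfold aa
    ring
  · obtain ⟨s, rfl⟩ := Nat.exists_eq_add_of_le' ht
    have d3 : dd (3 * (s + 3)) = X ^ 5 * aa ^ s := by
      rw [show 3 * (s + 3) = 3 * s + 9 by ring, dd_c]
    rw [d3]
    refine ⟨aa ^ s * (3 * X ^ 2 + 41 * X ^ 3 + 240 * X ^ 4 + 790 * X ^ 5 + 1617 * X ^ 6 +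
      2156 * X ^ 7 + 1913 * X ^ 8 + 1135 * X ^ 9 + 445 * X ^ 10 + 111 * X ^ 11 + 16 * X ^ 12 +
      X ^ 13), ?_⟩
    rw [show s + 3 + 3 = s + 6 by ring, show s + 3 + 2 = s + 5 by ring]
    unfold bb
    rw [pow_add aa s 6, pow_add aa s 5, pow_add aa s 3]
    generalize aa ^ s = A
    unfold aa
    ring

private theorem B8_case1 (t : ℕ) :
    Le (bb * (gg (3 * t + 1 + 8) + dd (3 * t + 1 + 8)) +
        X * (bb ^ 5 * (gg (3 * t + 1) + dd (3 * t + 1))))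
      (gg (3 * t + 1 + 10) + dd (3 * t + 1 + 10)) := by
  have e1 : gg (3 * t + 1 + 8) = aa ^ (t + 3) := by
    rw [show 3 * t + 1 + 8 = 3 * (t + 3) by ring, gg_c0]
  have e2 : gg (3 * t + 1 + 10) = aa ^ (t + 3) * (1 + 2 * X) := by
    rw [show 3 * t + 1 + 10 = 3 * (t + 3) + 2 by ring, gg_c2]
  have d1 : dd (3 * t + 1 + 8) = X ^ 5 * aa ^ t := by
    rw [show 3 * t + 1 + 8 = 3 * t + 9 by ring, dd_c]
  have d2 : dd (3 * t + 1 + 10) = 0 := dd_z (Or.inr (by omega))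
  have d3 : dd (3 * t + 1) = 0 := dd_z (Or.inr (by omega))
  rw [e1, e2, d1, d2, d3, gg_c1]
  refine ⟨aa ^ t * (3 * X ^ 2 + 15 * X ^ 3 + 25 * X ^ 4 + 14 * X ^ 5 + 2 * X ^ 6), ?_⟩
  unfold bb
  rw [pow_add]
  generalize aa ^ t = A
  unfold aa
  ring

private theorem B8_case2 (t : ℕ) :
    Le (bb * (gg (3 * t + 2 + 8) + dd (3 * t + 2 + 8)) +
        X * (bb ^ 5 * (gg (3 * t + 2) + dd (3 * t + 2))))
      (gg (3 * t + 2 + 10) + dd (3 * t + 2 + 10)) := by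
  have e1 : gg (3 * t + 2 + 8) = aa ^ (t + 3) * bb := by
    rw [show 3 * t + 2 + 8 = 3 * (t + 3) + 1 by ring, gg_c1]
  have e2 : gg (3 * t + 2 + 10) = aa ^ (t + 4) := by
    rw [show 3 * t + 2 + 10 = 3 * (t + 4) by ring, gg_c0]
  have d1 : dd (3 * t + 2 + 10) = X ^ 5 * aa ^ (t + 1) := by
    rw [show 3 * t + 2 + 10 = 3 * (t + 1) + 9 by ring, dd_c]
  have d2 : dd (3 * t + 2 + 8) = 0 := dd_z (Or.inr (by omega))
  have d3 : dd (3 * t + 2) = 0 := dd_z (Or.inr (by omega))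
  rw [e1, e2, d1, d2, d3, gg_c2]
  refine ⟨aa ^ t * (2 * X ^ 2 + 10 * X ^ 3 + 15 * X ^ 4 + 6 * X ^ 5 + X ^ 6), ?_⟩
  unfold bb
  rw [pow_add, pow_add, pow_add]
  generalize aa ^ t = A
  unfold aa
  ring

/-- Proof. `i = 3 t`: `gg (3 t + 8) = aa ^ (t + 2) * (1 + 2 X)`, `gg (3 t) + dd (3 t) = aa ^ t + dd (3 t)`,
`gg (3 t + 10) = aa ^ (t + 3) * bb`, the other `dd` are `0`. Without `dd (3 t)` the difference is
`aa ^ t * D`, `D = 3 X^2 + 14 X^3 + 24 X^4 + 19 X^5 + 7 X^6 + X^7`; for `t = s + 3` it is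
`aa ^ s * (aa ^ 3 * D - X ^ 6 * bb ^ 5)`.
`i = 3 t + 1`: `gg (3 t + 9) + dd (3 t + 9) = aa ^ (t + 3) + X ^ 5 * aa ^ t`, `gg (3 t + 1) = aa ^ t * bb`,
`gg (3 t + 11) = aa ^ (t + 3) * (1 + 2 X)`: the difference is `aa ^ t` times
`3 X^2 + 15 X^3 + 25 X^4 + 14 X^5 + 2 X^6`.
`i = 3 t + 2`: `gg (3 t + 10) = aa ^ (t + 3) * bb`, `gg (3 t + 2) = aa ^ t * (1 + 2 X)`,
`gg (3 t + 12) + dd (3 t + 12) = aa ^ (t + 4) + X ^ 5 * aa ^ (t + 1)`: the difference is `aa ^ t` times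
`2 X^2 + 10 X^3 + 15 X^4 + 6 X^5 + X^6`. -/
theorem hh_step (i : ℕ) : Le (bb * (gg (i + 8) + dd (i + 8)) + X * (bb ^ 5 * (gg i + dd i)))
    (gg (i + 10) + dd (i + 10)) := by
  obtain ⟨t, ht⟩ : ∃ t, t = i / 3 := ⟨_, rfl⟩
  rcases (show i % 3 = 0 ∨ i % 3 = 1 ∨ i % 3 = 2 by omega) with h | h | h
  · obtain rfl : i = 3 * t := by omega
    exact B8_case0 t
  · obtain rfl : i = 3 * t + 1 := by omega
    exact B8_case1 t
  · obtain rfl : i = 3 * t + 2 := by omega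
    exact B8_case2 t

/-- Proof. As `phi_succ` in the file `H20WD.Q3`. Put `m i = UU (n - 1) (k - d - i)`;
`PhiU n k (d + 1) = m 1 + X * (m 1 + ... + m (d + 1))` and
`PhiU n k d = m 0 + X * (m 0 + ... + m (d - 1))`. The sums `m 1 + ... + m (d - 1)` cancel, so the claim
is `m 1 + X * m d + X * m (d + 1) ≤ m 0 + X * m 0`. By `UU_mono` `m d ≤ m 0`, `m (d + 1) ≤ m 5`
(`d ≥ 4`), and `m 1 + X * m 5 ≤ m 0` is `hh_step` with `i = 2 k + 2 - n - 2 d - 10` times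
`bb ^ (n - 2 - k + d)` (`UU_cl`: `m 0` has `j = i + 10`, `m 1` has `j = i + 8`, `m 5` has `j = i`). -/
theorem PhiU_succ {n k d : ℕ} (hd : 4 ≤ d) (hx : n + (d + 1) ^ 2 ≤ 2 * k + 1) (hk : k < n) :
    Le (PhiU n k (d + 1)) (PhiU n k d) := by
  have hd2 : 2 * d + 17 ≤ (d + 1) ^ 2 := by nlinarith
  obtain ⟨e, rfl⟩ : ∃ e, d = e + 1 := ⟨d - 1, by omega⟩
  obtain ⟨i, hi⟩ : ∃ i, 2 * k = n + 2 * (e + 1) + 8 + i := ⟨2 * k - (n + 2 * (e + 1) + 8), by omega⟩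
  have em0 : UU (n - 1) (k - (e + 1)) =
      bb ^ (n - 1 - 1 - (k - (e + 1))) * (gg (i + 10) + dd (i + 10)) :=
    UU_cl (by omega) (by omega)
  have em1 : UU (n - 1) (k - (e + 1) - 1) =
      bb ^ (n - 1 - 1 - (k - (e + 1))) * (bb * (gg (i + 8) + dd (i + 8))) := by
    rw [UU_cl (j := i + 8) (by omega) (by omega),
      show n - 1 - 1 - (k - (e + 1) - 1) = n - 1 - 1 - (k - (e + 1)) + 1 by omega]
    ring
  have em5 : UU (n - 1) (k - (e + 1) - 5) =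
      bb ^ (n - 1 - 1 - (k - (e + 1))) * (bb ^ 5 * (gg i + dd i)) := by
    rw [UU_cl (j := i) (by omega) (by omega),
      show n - 1 - 1 - (k - (e + 1) - 5) = n - 1 - 1 - (k - (e + 1)) + 5 by omega]
    ring
  have hstep : Le (UU (n - 1) (k - (e + 1) - 1) + X * UU (n - 1) (k - (e + 1) - 5))
      (UU (n - 1) (k - (e + 1))) := by
    rw [em0, em1, em5]
    refine (Le.of_eq ?_).trans (Le.mul (bb ^ (n - 1 - 1 - (k - (e + 1)))) (hh_step i))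
    ring
  have hle1 : Le (UU (n - 1) (k - (e + 1) - (e + 1))) (UU (n - 1) (k - (e + 1))) :=
    UU_mono (by omega) (by omega)
  have hle2 : Le (UU (n - 1) (k - (e + 1) - (e + 1 + 1))) (UU (n - 1) (k - (e + 1) - 5)) :=
    UU_mono (by omega) (by omega)
  have hS : ∑ j ∈ range e, UU (n - 1) (k - (e + 1 + 1) - j) =
      ∑ j ∈ range e, UU (n - 1) (k - (e + 1) - (j + 1)) :=
    sum_congr rfl fun j _ => by rw [show k - (e + 1 + 1) - j = k - (e + 1) - (j + 1) by omega]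
  have eL : PhiU n k (e + 1 + 1) = UU (n - 1) (k - (e + 1) - 1) + X *
      ((∑ j ∈ range e, UU (n - 1) (k - (e + 1) - (j + 1))) +
        UU (n - 1) (k - (e + 1) - (e + 1)) + UU (n - 1) (k - (e + 1) - (e + 1 + 1))) := by
    unfold PhiU
    rw [sum_range_succ, sum_range_succ, hS,
      show k - (e + 1 + 1) = k - (e + 1) - 1 by omega,
      show k - (e + 1) - 1 - e = k - (e + 1) - (e + 1) by omega,
      show k - (e + 1) - 1 - (e + 1) = k - (e + 1) - (e + 1 + 1) by omega]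
  have eR : PhiU n k (e + 1) = UU (n - 1) (k - (e + 1)) + X *
      ((∑ j ∈ range e, UU (n - 1) (k - (e + 1) - (j + 1))) + UU (n - 1) (k - (e + 1))) := by
    unfold PhiU
    rw [sum_range_succ', Nat.sub_zero]
  rw [eL, eR]
  obtain ⟨r0, hr0⟩ := hstep
  obtain ⟨r1, hr1⟩ := hle1
  obtain ⟨r2, hr2⟩ := hle2
  refine ⟨r0 + X * r1 + X * r2, ?_⟩
  generalize (∑ j ∈ range e, UU (n - 1) (k - (e + 1) - (j + 1))) = S
  generalize UU (n - 1) (k - (e + 1) - (e + 1)) = a1 at hr1 ⊢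
  generalize UU (n - 1) (k - (e + 1) - (e + 1 + 1)) = a2 at hr2 ⊢
  have h0 : UU (n - 1) (k - (e + 1)) + X * (S + UU (n - 1) (k - (e + 1))) =
      (UU (n - 1) (k - (e + 1) - 1) + X * UU (n - 1) (k - (e + 1) - 5) + r0) +
        X * (S + (a1 + r1)) := by
    rw [← hr0, ← hr1]
  rw [h0, hr2]
  ring

end Pool.Agent.Lib.H20WE
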