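import Pool.Agent.Lib.H20WE.A1
import Pool.Agent.Lib.H20WE.A3
import Pool.Agent.Lib.H20WE.B2
import Pool.Agent.Lib.H20WE.B3

/-! # D1: a pendant vertex -/

set_option autoImplicit false

namespace Pool.Agent.Lib.H20WE

open Finset Polynomial Pool.Agent.Lib.H20WD
open scoped Classical

variable {V : Type}

/-- A vertex of degree one has one neighbour. -/
private theorem D1_one {H : SimpleGraph V} {S : Finset V} {u v : V} (hu : u ∈ S)
    (huv : H.Adj v u) (h1 : dg H S v = 1) : ∀ w ∈ S, H.Adj v w → w = u := by
  intro w hw hvw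
  obtain ⟨a, ha⟩ := card_eq_one.1 h1
  have e1 : u ∈ S.filter fun w => H.Adj v w := mem_filter.2 ⟨hu, huv⟩
  have e2 : w ∈ S.filter fun w => H.Adj v w := mem_filter.2 ⟨hw, hvw⟩
  rw [ha, mem_singleton] at e1 e2
  rw [e1, e2]

/-- Proof. `k = ec H S`, `x = 2 k + 1 - n ≥ 9`; `S.erase v` has `n - 1` vertices and `k - 1` edges,
`G = (S.erase v).erase u` has `n - 2` vertices and `k - dg H S u` edges (`ec_erase`, `dg_erase`).
`Ub.pend`, and `Ub.mono`.
(a) `dg H S u ≥ 3`: `UU (n - 2) (k - dg H S u) ≤ PP (n - 2) (k - 2)` (`UU_lt`). If `x % 3 ≠ 2`: `UU_pend`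
(`PP_le_UU`); if `x % 3 = 2`: `UU (n - 1) (k - 1)` is `PP` (`UU_eq`), and `PP_pend`.
(b) `dg H S u = 2`, `x % 3 ≠ 2`: `UU_pend`.
(c) `dg H S u = 2`, `x % 3 = 2` (so `x ≥ 11`): `UU (n - 1) (k - 1)` is `PP`. If `NoK H G`: `hN` and
`PP_pend`. Otherwise: `NoK H (S.erase v)` by `noK_erase` (the only neighbour `u` of `v` has degree
one in `S.erase v`), so by `exists_adj_of_inK` (for `S.erase v` and `u`) there is `y` with `InK H G y`,
`H.Adj u y`, `dg H G y = 3`; in `S.erase v` the vertex `u` is pendant with neighbour `y`. So with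
`p = UU (n - 2) (k - 2)` (for `G`) and `p' = UU (n - 3) (k - 5)` (for `G.erase y`): `Ub.pend` twice gives
`(p + X * p') + X * p = bb * p + X * p'`, and `UU_pend2`. -/
theorem case_pendN {n : ℕ} (hU : ∀ m < n, BdU V m) (hN : ∀ m < n, BdN V m) {H : SimpleGraph V}
    {S : Finset V} (hS : #S = n) (hk : ec H S < n) (hx : n + 8 ≤ 2 * ec H S) (hNK : NoK H S)
    {u v : V} (hu : u ∈ S) (hv : v ∈ S) (huv : H.Adj v u) (h1 : dg H S v = 1)
    (h2 : 2 ≤ dg H S u) : Ub H S (PP n (ec H S)) := by
  subst hS
  have hone := D1_one hu huv h1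
  have hue : u ∈ S.erase v := mem_erase.2 ⟨huv.ne', hu⟩
  have c1 := card_erase_add_one hv
  have c2 := card_erase_add_one hue
  have e1 := ec_erase H hv
  have e2 := ec_erase H hue
  have d1 := dg_erase H hv huv.symm
  generalize hkk : ec H S = k at *
  generalize hnn : #S = n at *
  have f1 : ec H (S.erase v) = k - 1 := by omega
  have f2 : ec H ((S.erase v).erase u) = k - dg H S u := by omega
  have g1 : #(S.erase v) = n - 1 := by omega
  have g2 : #((S.erase v).erase u) = n - 2 := by omega
  have b1 : Ub H (S.erase v) (UU (n - 1) (k - 1)) := by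
    rw [← f1]
    exact hU (n - 1) (by omega) H (S.erase v) g1 (by omega)
  have b2 : Ub H ((S.erase v).erase u) (UU (n - 2) (k - dg H S u)) := by
    rw [← f2]
    exact hU (n - 2) (by omega) H ((S.erase v).erase u) g2 (by omega)
  by_cases h3 : (2 * k + 1 - n) % 3 = 2
  · have e3 : UU (n - 1) (k - 1) = PP (n - 1) (k - 1) := UU_eq (by omega)
    rw [e3] at b1
    by_cases h4 : dg H S u = 2
    · by_cases h5 : NoK H ((S.erase v).erase u)
      · have b3 : Ub H ((S.erase v).erase u) (PP (n - 2) (k - 2)) := by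
          have := hN (n - 2) (by omega) H ((S.erase v).erase u) g2 (by omega) h5
          rwa [f2, h4] at this
        exact (Ub.pend hu hv huv hone b1 b3).mono (PP_pend (by omega) hk)
      · unfold NoK at h5
        push Not at h5
        obtain ⟨a, ha⟩ := h5
        have h6 : NoK H (S.erase v) := by
          refine noK_erase hNK fun y hvy hy => ?_
          have hyu : y = u := hone y (mem_erase.1 hy.mem).2 hvy
          have := hy.dg
          rw [hyu] at this
          omega
        obtain ⟨y, hy, huy⟩ := exists_adj_of_inK h6 ha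
        have hyG := hy.mem
        have hye : y ∈ S.erase v := (mem_erase.1 hyG).2
        have hone' := D1_one hye huy (show dg H (S.erase v) u = 1 by omega)
        have c3 := card_erase_add_one hyG
        have e4 := ec_erase H hyG
        rw [hy.dg] at e4
        have b3 : Ub H (((S.erase v).erase u).erase y) (UU (n - 3) (k - 5)) := by
          have f3 : ec H (((S.erase v).erase u).erase y) = k - 5 := by omega
          rw [← f3]
          exact hU (n - 3) (by omega) H _ (by omega) (by omega)
        rw [h4] at b2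
        have b4 := Ub.pend hye hue huy hone' b2 b3
        have b5 := Ub.pend hu hv huv hone b4 b2
        have e5 : UU (n - 2) (k - 2) + X * UU (n - 3) (k - 5) + X * UU (n - 2) (k - 2) =
            bb * UU (n - 2) (k - 2) + X * UU (n - 3) (k - 5) := by
          rw [bb]
          ring
        rw [e5] at b5
        exact b5.mono (UU_pend2 (by omega) hk h3)
    · have b3 : Ub H ((S.erase v).erase u) (PP (n - 2) (k - 2)) :=
        b2.mono (UU_lt (by omega) (by omega))
      exact (Ub.pend hu hv huv hone b1 b3).mono (PP_pend (by omega) hk)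
  · have b3 : Ub H ((S.erase v).erase u) (UU (n - 2) (k - 2)) :=
      b2.mono (UU_mono (by omega) (by omega))
    exact (Ub.pend hu hv huv hone b1 b3).mono (UU_pend (by omega) hk h3)

end Pool.Agent.Lib.H20WE
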