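import Pool.Agent.Lib.H20WE.A1

/-! # D5: a triangle with one edge to the rest -/

set_option autoImplicit false

namespace Pool.Agent.Lib.H20WE

open Finset Polynomial Pool.Agent.Lib.H20WD
open scoped Classical

variable {V : Type}

/-- Proof. `T = ((S.erase v).erase u).erase w = ((S.erase v).erase w).erase u`. In
`(S.erase v).erase w` the vertex `u` is pendant with neighbour `y`: `Ub.pend`: `p + X * p'`. In
`S.erase v` the vertex `w` is pendant with neighbour `u`: `(p + X * p') + X * p`. In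
`(S.erase v).erase u` the vertex `w` is isolated: `p`. `Ub.three`:
`(p + X * p' + X * p) + X * (p + X * p') + X * (p + X * p) = aa * p + X * (bb * p')`. -/
theorem Ub.kite {H : SimpleGraph V} {S : Finset V} {p p' : ℕ[X]} {u v w y : V} (hu : u ∈ S)
    (hv : v ∈ S) (hw : w ∈ S) (hvu : H.Adj v u) (hvw : H.Adj v w) (huw : H.Adj u w)
    (h1 : ∀ x ∈ S, H.Adj v x → x = u ∨ x = w) (h2 : ∀ x ∈ S, H.Adj w x → x = v ∨ x = u)
    (hy : y ∈ ((S.erase v).erase u).erase w) (huy : H.Adj u y)
    (h3 : ∀ x ∈ S, H.Adj u x → x = v ∨ x = w ∨ x = y)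
    (hp : Ub H (((S.erase v).erase u).erase w) p)
    (hp' : Ub H ((((S.erase v).erase u).erase w).erase y) p') :
    Ub H S (aa * p + X * (bb * p')) := by
  have hcomm : ((S.erase v).erase w).erase u = ((S.erase v).erase u).erase w :=
    erase_right_comm
  have hyw : y ≠ w := (mem_erase.1 hy).1
  have hyu : y ≠ u := (mem_erase.1 (mem_erase.1 hy).2).1
  have hyv : y ≠ v := (mem_erase.1 (mem_erase.1 (mem_erase.1 hy).2).2).1
  have hyS : y ∈ S := (mem_erase.1 (mem_erase.1 (mem_erase.1 hy).2).2).2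
  have huv : u ∈ S.erase v := mem_erase.2 ⟨hvu.ne', hu⟩
  have hwv : w ∈ S.erase v := mem_erase.2 ⟨hvw.ne', hw⟩
  have huvw : u ∈ (S.erase v).erase w := mem_erase.2 ⟨huw.ne, huv⟩
  have hwvu : w ∈ (S.erase v).erase u := mem_erase.2 ⟨huw.ne', hwv⟩
  have hyvw : y ∈ (S.erase v).erase w := mem_erase.2 ⟨hyw, mem_erase.2 ⟨hyv, hyS⟩⟩
  have e2 : Ub H ((S.erase v).erase w) (p + X * p') := by
    refine Ub.pend hyvw huvw huy ?_ ?_ ?_
    · intro x hx hadj
      obtain ⟨hxw, hx1⟩ := mem_erase.1 hx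
      obtain ⟨hxv, hxS⟩ := mem_erase.1 hx1
      rcases h3 x hxS hadj with h | h | h
      · exact absurd h hxv
      · exact absurd h hxw
      · exact h
    · rw [hcomm]
      exact hp
    · rw [hcomm]
      exact hp'
  have e1 : Ub H (S.erase v) (p + X * p' + X * p) := by
    refine Ub.pend huv hwv huw.symm ?_ e2 ?_
    · intro x hx hadj
      obtain ⟨hxv, hxS⟩ := mem_erase.1 hx
      rcases h2 x hxS hadj with h | h
      · exact absurd h hxv
      · exact h
    · rw [hcomm]
      exact hp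
  have e3 : Ub H ((S.erase v).erase u) p := by
    refine Ub.iso hwvu ?_ hp
    intro x hx hadj
    obtain ⟨hxu, hx1⟩ := mem_erase.1 hx
    obtain ⟨hxv, hxS⟩ := mem_erase.1 hx1
    rcases h2 x hxS hadj with h | h
    · exact hxv h
    · exact hxu h
  have key := Ub.three hu hv hw hvu hvw huw h1 e1 e2 e3 hp
  have heq : p + X * p' + X * p + X * (p + X * p') + X * (p + X * p) =
      aa * p + X * (bb * p') := by
    unfold aa bb
    ring
  rw [heq] at key
  exact key

end Pool.Agent.Lib.H20WE
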