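import Pool.Agent.Lib.H20WE.Defs
import Pool.Agent.Lib.H20WD.V1

/-! # D9: the polynomial of a component `K_4` -/

set_option autoImplicit false

namespace Pool.Agent.Lib.H20WE

open Finset Polynomial Pool.Agent.Lib.H20WD
open scoped Classical

variable {V : Type}

private theorem D9_edge {H : SimpleGraph V} {S : Finset V} {p p' : ℕ[X]} {u v : V} (hu : u ∈ S)
    (hv : v ∈ S) (huv : H.Adj u v) (h1 : Cp (del H u v) S p) (h2 : Cp (ctr H u v) (S.erase v) p') :
    Cp H S (p + X * p') := by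
  have hn : #(S.erase v) + 1 = #S := card_erase_add_one hv
  refine ⟨fun j hj => ?_, fun q => ?_⟩
  · obtain ⟨i, rfl⟩ : ∃ i, j = i + 1 := ⟨j - 1, by omega⟩
    rw [coeff_add, coeff_X_mul, h1.1 _ hj, h2.1 i (by omega)]
  · rw [cnt_edge H hu hv huv q, h1.2 q, h2.2 q, lam_add]
    congr 1
    rw [← hn, lam_X]

private theorem D9_nbr {H : SimpleGraph V} {S : Finset V} {a b c d : V} (hb : b ∈ S) (hc : c ∈ S)
    (hd : d ∈ S) (hab : H.Adj a b) (hac : H.Adj a c) (had : H.Adj a d) (hbc : b ≠ c) (hbd : b ≠ d)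
    (hcd : c ≠ d) (h : dg H S a = 3) : ∀ x ∈ S, H.Adj a x → x = b ∨ x = c ∨ x = d := by
  intro x hx hx'
  have hsub : ({b, c, d} : Finset V) ⊆ S.filter fun w => H.Adj a w := by
    intro y hy
    rw [mem_insert, mem_insert, mem_singleton] at hy
    rcases hy with rfl | rfl | rfl
    · exact mem_filter.2 ⟨hb, hab⟩
    · exact mem_filter.2 ⟨hc, hac⟩
    · exact mem_filter.2 ⟨hd, had⟩
  have hcard : #({b, c, d} : Finset V) = 3 := card_eq_three.2 ⟨b, c, d, hbc, hbd, hcd, rfl⟩
  have heq := eq_of_subset_of_card_le hsub (by rw [hcard]; exact h.le)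
  have hx2 : x ∈ S.filter fun w => H.Adj a w := mem_filter.2 ⟨hx, hx'⟩
  rw [← heq, mem_insert, mem_insert, mem_singleton] at hx2
  exact hx2

/-- Proof. As `Ub.k2` (file `A2`): `Cp.iso`, `Cp.pend`. -/
theorem cp_k2 {H : SimpleGraph V} {S : Finset V} {p : ℕ[X]} {u v : V} (hu : u ∈ S) (hv : v ∈ S)
    (huv : H.Adj v u) (h : ∀ x ∈ S, H.Adj v x → x = u) (h' : ∀ x ∈ S, H.Adj u x → x = v)
    (hp : Cp H ((S.erase v).erase u) p) : Cp H S (bb * p) := by
  have hvu' : u ≠ v := huv.ne'
  have h1 : Cp H (S.erase v) p := by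
    refine Cp.iso (mem_erase.2 ⟨hvu', hu⟩) (fun w hw hw' => ?_) hp
    exact (ne_of_mem_erase hw) (h' w (mem_of_mem_erase hw) hw')
  have h2 := Cp.pend hu hv huv h h1 hp
  have e : bb * p = p + X * p := by rw [bb]; ring
  rw [e]
  exact h2

/-- Proof. As `Ub.k3` (file `A2`): `Cp.three`, `cp_k2`, `Cp.iso`. -/
theorem cp_k3 {H : SimpleGraph V} {S : Finset V} {p : ℕ[X]} {u v w : V} (hu : u ∈ S) (hv : v ∈ S)
    (hw : w ∈ S) (hvu : H.Adj v u) (hvw : H.Adj v w) (huw : H.Adj u w)
    (h1 : ∀ x ∈ S, H.Adj v x → x = u ∨ x = w) (h2 : ∀ x ∈ S, H.Adj u x → x = v ∨ x = w)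
    (h3 : ∀ x ∈ S, H.Adj w x → x = v ∨ x = u) (hp : Cp H (((S.erase v).erase u).erase w) p) :
    Cp H S (aa * p) := by
  have huv' : u ≠ v := hvu.ne'
  have hwv' : w ≠ v := hvw.ne'
  have hwu' : w ≠ u := huw.ne'
  have hue : u ∈ S.erase v := mem_erase.2 ⟨huv', hu⟩
  have hwe : w ∈ S.erase v := mem_erase.2 ⟨hwv', hw⟩
  have c1 : Cp H (S.erase v) (bb * p) := by
    refine cp_k2 (u := w) (v := u) hwe hue huw ?_ ?_ hp
    · intro x hx hux
      rcases h2 x (mem_of_mem_erase hx) hux with h' | h'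
      · exact absurd h' (ne_of_mem_erase hx)
      · exact h'
    · intro x hx hwx
      rcases h3 x (mem_of_mem_erase hx) hwx with h' | h'
      · exact absurd h' (ne_of_mem_erase hx)
      · exact h'
  have c2 : Cp H ((S.erase v).erase w) p := by
    refine Cp.iso (mem_erase.2 ⟨hwu'.symm, hue⟩) (fun x hx hux => ?_) ?_
    · rcases h2 x (mem_of_mem_erase (mem_of_mem_erase hx)) hux with h' | h'
      · exact (ne_of_mem_erase (mem_of_mem_erase hx)) h'
      · exact (ne_of_mem_erase hx) h'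
    · rw [erase_right_comm]
      exact hp
  have c3 : Cp H ((S.erase v).erase u) p := by
    refine Cp.iso (mem_erase.2 ⟨hwu', hwe⟩) (fun x hx hwx => ?_) hp
    rcases h3 x (mem_of_mem_erase (mem_of_mem_erase hx)) hwx with h' | h'
    · exact (ne_of_mem_erase (mem_of_mem_erase hx)) h'
    · exact (ne_of_mem_erase hx) h'
  have h4 := Cp.three hu hv hw hvu hvw huw h1 c1 c2 c3 hp
  have e : aa * p = bb * p + X * p + X * (p + X * p) := by rw [aa, bb]; ring
  rw [e]
  exact h4

/-- Proof. As `Ub.k4` (file `A2`), with `cnt_edge` (and `lam_add`, `lam_X`) for the edge `ba`,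
`Cp.three`, `cp_k3`, `cp_k2`, `Cp.iso`, `Cp.congr`. -/
theorem cp_k4 {H : SimpleGraph V} {S : Finset V} {p : ℕ[X]} {a b c d : V} (h : IsK H S a b c d)
    (hp : Cp H ((((S.erase a).erase b).erase c).erase d) p) : Cp H S (kk * p) := by
  obtain ⟨ha, hb, hc, hd, hab, hac, had, hbc, hbd, hcd, da, db, dc, dd'⟩ := h
  have hab' : b ≠ a := hab.ne'
  have hac' : c ≠ a := hac.ne'
  have had' : d ≠ a := had.ne'
  have hbc' : c ≠ b := hbc.ne'
  have hbd' : d ≠ b := hbd.ne'
  have hcd' : d ≠ c := hcd.ne'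
  have na := D9_nbr hb hc hd hab hac had hbc'.symm hbd'.symm hcd'.symm da
  have nb := D9_nbr ha hc hd hab.symm hbc hbd hac'.symm had'.symm hcd'.symm db
  have nc := D9_nbr ha hb hd hac.symm hbc.symm hcd hab'.symm had'.symm hbd'.symm dc
  have nd := D9_nbr ha hb hc had.symm hbd.symm hcd.symm hab'.symm hac'.symm hbc'.symm dd'
  have hbe : b ∈ S.erase a := mem_erase.2 ⟨hab', hb⟩
  have hce : c ∈ S.erase a := mem_erase.2 ⟨hac', hc⟩
  have hde : d ∈ S.erase a := mem_erase.2 ⟨had', hd⟩
  -- neighbours without `a`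
  have nb' : ∀ x ∈ S.erase a, H.Adj b x → x = c ∨ x = d := fun x hx hx' => by
    rcases nb x (mem_of_mem_erase hx) hx' with h' | h' | h'
    · exact absurd h' (ne_of_mem_erase hx)
    · exact Or.inl h'
    · exact Or.inr h'
  have nc' : ∀ x ∈ S.erase a, H.Adj c x → x = b ∨ x = d := fun x hx hx' => by
    rcases nc x (mem_of_mem_erase hx) hx' with h' | h' | h'
    · exact absurd h' (ne_of_mem_erase hx)
    · exact Or.inl h'
    · exact Or.inr h'
  have nd' : ∀ x ∈ S.erase a, H.Adj d x → x = b ∨ x = c := fun x hx hx' => by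
    rcases nd x (mem_of_mem_erase hx) hx' with h' | h' | h'
    · exact absurd h' (ne_of_mem_erase hx)
    · exact Or.inl h'
    · exact Or.inr h'
  -- contraction
  have hctr : Cp (ctr H b a) (S.erase a) (aa * p) := by
    have cbc : (ctr H b a).Adj b c := ⟨hbc, fun _ => hac, fun h' => absurd h' hbc'⟩
    have cbd : (ctr H b a).Adj b d := ⟨hbd, fun _ => had, fun h' => absurd h' hbd'⟩
    have ccd : (ctr H b a).Adj c d :=
      ⟨hcd, fun h' => absurd h' hbc', fun h' => absurd h' hbd'⟩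
    refine cp_k3 (u := c) (v := b) (w := d) hce hbe hde cbc cbd ccd
      (fun x hx hx' => nb' x hx hx'.1) (fun x hx hx' => nc' x hx hx'.1)
      (fun x hx hx' => nd' x hx hx'.1) (Cp.congr ?_ hp)
    intro y hy z hz
    have hy' : y ≠ b := ne_of_mem_erase (mem_of_mem_erase (mem_of_mem_erase hy))
    have hz' : z ≠ b := ne_of_mem_erase (mem_of_mem_erase (mem_of_mem_erase hz))
    exact ⟨fun h => ⟨h, fun h' => absurd h' hy', fun h' => absurd h' hz'⟩, fun h => h.1⟩
  -- deletion
  have hiff : ∀ T : Finset V, a ∉ T → ∀ y ∈ T, ∀ z ∈ T, (H.Adj y z ↔ (del H b a).Adj y z) := by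
    intro T hT y hy z hz
    have hy' : y ≠ a := fun h' => hT (h' ▸ hy)
    have hz' : z ≠ a := fun h' => hT (h' ▸ hz)
    exact ⟨fun h => ⟨h, fun h' => hz' h'.2, fun h' => hy' h'.1⟩, fun h => h.1⟩
  have p1 : Cp H (S.erase a) (aa * p) :=
    cp_k3 (u := c) (v := b) (w := d) hce hbe hde hbc hbd hcd nb' nc' nd' hp
  have p2 : Cp H ((S.erase a).erase d) (bb * p) := by
    refine cp_k2 (u := c) (v := b) (mem_erase.2 ⟨hcd'.symm, hce⟩) (mem_erase.2 ⟨hbd'.symm, hbe⟩)
      hbc ?_ ?_ ?_
    · intro x hx hx'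
      rcases nb' x (mem_of_mem_erase hx) hx' with h' | h'
      · exact h'
      · exact absurd h' (ne_of_mem_erase hx)
    · intro x hx hx'
      rcases nc' x (mem_of_mem_erase hx) hx' with h' | h'
      · exact h'
      · exact absurd h' (ne_of_mem_erase hx)
    · have e : (((S.erase a).erase d).erase b).erase c =
          (((S.erase a).erase b).erase c).erase d := by
        rw [erase_right_comm (a := d), erase_right_comm (a := d)]
      rw [e]
      exact hp
  have p3 : Cp H ((S.erase a).erase c) (bb * p) := by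
    refine cp_k2 (u := d) (v := b) (mem_erase.2 ⟨hcd', hde⟩) (mem_erase.2 ⟨hbc'.symm, hbe⟩)
      hbd ?_ ?_ ?_
    · intro x hx hx'
      rcases nb' x (mem_of_mem_erase hx) hx' with h' | h'
      · exact absurd h' (ne_of_mem_erase hx)
      · exact h'
    · intro x hx hx'
      rcases nd' x (mem_of_mem_erase hx) hx' with h' | h'
      · exact h'
      · exact absurd h' (ne_of_mem_erase hx)
    · have e : (((S.erase a).erase c).erase b).erase d =
          (((S.erase a).erase b).erase c).erase d := by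
        rw [erase_right_comm (a := c)]
      rw [e]
      exact hp
  have p4 : Cp H (((S.erase a).erase c).erase d) p := by
    refine Cp.iso (v := b) (mem_erase.2 ⟨hbd'.symm, mem_erase.2 ⟨hbc'.symm, hbe⟩⟩) ?_ ?_
    · intro x hx hx'
      rcases nb' x (mem_of_mem_erase (mem_of_mem_erase hx)) hx' with h' | h'
      · exact (ne_of_mem_erase (mem_of_mem_erase hx)) h'
      · exact (ne_of_mem_erase hx) h'
    · have e : (((S.erase a).erase c).erase d).erase b =
          (((S.erase a).erase b).erase c).erase d := by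
        rw [erase_right_comm (a := d), erase_right_comm (a := c)]
      rw [e]
      exact hp
  have hdel : Cp (del H b a) S (aa * p + X * (bb * p) + X * (bb * p + X * p)) := by
    refine Cp.three (u := c) (v := a) (w := d) hc ha hd ?_ ?_ ?_ ?_
      (Cp.congr (hiff _ (notMem_erase a S)) p1)
      (Cp.congr (hiff _ fun h' => notMem_erase a S (mem_of_mem_erase h')) p2)
      (Cp.congr (hiff _ fun h' => notMem_erase a S (mem_of_mem_erase h')) p3)
      (Cp.congr (hiff _ fun h' => notMem_erase a S (mem_of_mem_erase (mem_of_mem_erase h'))) p4)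
    · exact ⟨hac, fun h' => hac' h'.2, fun h' => hbc' h'.2⟩
    · exact ⟨had, fun h' => had' h'.2, fun h' => hbd' h'.2⟩
    · exact ⟨hcd, fun h' => hbc' h'.1, fun h' => hac' h'.1⟩
    · intro x hx hx'
      rcases na x hx hx'.1 with h' | h' | h'
      · exact absurd ⟨rfl, h'⟩ hx'.2.2
      · exact Or.inl h'
      · exact Or.inr h'
  have h5 := D9_edge hb ha hab.symm hdel hctr
  have e : kk * p = aa * p + X * (bb * p) + X * (bb * p + X * p) + X * (aa * p) := by
    rw [kk, aa, bb]; ring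
  rw [e]
  exact h5

end Pool.Agent.Lib.H20WE
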