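import Pool.Agent.Lib.H20WD.G2
import Pool.Agent.Lib.H20WD.U6

/-!
# The number of colourings of dense graphs, all numbers of colours (MP_e806f7)

Notation as in the folder `H20WD`. `x = 2 k + 1 - n` for a graph with `n` vertices and `k < n` edges.
-/

set_option autoImplicit false

namespace Pool.Agent.Lib.H20WE

open Finset Polynomial Pool.Agent.Lib.H20WD
open scoped Classical

/-- The polynomial `p` is an upper bound for all numbers of colours. -/
def Ub {V : Type} (H : SimpleGraph V) (S : Finset V) (p : ℕ[X]) : Prop :=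
  ∀ q, cnt H S q ≤ lam #S q p

/-- `K_4`. -/
noncomputable def kk : ℕ[X] := 1 + 6 * X + 7 * X ^ 2 + X ^ 3

/-- What a component `K_4` may add. -/
noncomputable def dd (i : ℕ) : ℕ[X] := if 9 ≤ i ∧ i % 3 = 0 then X ^ 5 * aa ^ ((i - 9) / 3) else 0

/-- The upper bound for all graphs with `n` vertices and `k < n` edges. -/
noncomputable def UU (n k : ℕ) : ℕ[X] := PP n k + bb ^ (n - 1 - k) * dd (2 * k + 1 - n)

/-- The vertices `a, b, c, d` form a component `K_4`. -/
def IsK {V : Type} (H : SimpleGraph V) (S : Finset V) (a b c d : V) : Prop :=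
  a ∈ S ∧ b ∈ S ∧ c ∈ S ∧ d ∈ S ∧ H.Adj a b ∧ H.Adj a c ∧ H.Adj a d ∧ H.Adj b c ∧ H.Adj b d ∧
    H.Adj c d ∧ dg H S a = 3 ∧ dg H S b = 3 ∧ dg H S c = 3 ∧ dg H S d = 3

/-- The component of `a` is a `K_4`. -/
def InK {V : Type} (H : SimpleGraph V) (S : Finset V) (a : V) : Prop := ∃ b c d, IsK H S a b c d

/-- There is no component `K_4`. -/
def NoK {V : Type} (H : SimpleGraph V) (S : Finset V) : Prop := ∀ a, ¬ InK H S a

/-- The bound for graphs without a component `K_4`. -/
def BdN (V : Type) (n : ℕ) : Prop :=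
  ∀ (H : SimpleGraph V) (S : Finset V), #S = n → ec H S < n → NoK H S → Ub H S (PP n (ec H S))

/-- The bound for all graphs. -/
def BdU (V : Type) (n : ℕ) : Prop :=
  ∀ (H : SimpleGraph V) (S : Finset V), #S = n → ec H S < n → Ub H S (UU n (ec H S))

/-! ## Closed forms -/

theorem gg_c0 (t : ℕ) : gg (3 * t) = aa ^ t := by
  induction t with
  | zero => rw [Nat.mul_zero, gg_zero, pow_zero]
  | succ t ih => rw [show 3 * (t + 1) = 3 * t + 3 by ring, gg_add, ih]; ring

theorem gg_c1 (t : ℕ) : gg (3 * t + 1) = aa ^ t * bb := by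
  induction t with
  | zero => rw [Nat.mul_zero, zero_add, gg_one, pow_zero, bb]; ring
  | succ t ih => rw [show 3 * (t + 1) + 1 = 3 * t + 1 + 3 by ring, gg_add, ih]; ring

theorem gg_c2 (t : ℕ) : gg (3 * t + 2) = aa ^ t * (1 + 2 * X) := by
  induction t with
  | zero => rw [Nat.mul_zero, zero_add, gg_two', pow_zero]; ring
  | succ t ih => rw [show 3 * (t + 1) + 2 = 3 * t + 2 + 3 by ring, gg_add, ih]; ring

theorem dd_z {i : ℕ} (h : i < 9 ∨ i % 3 ≠ 0) : dd i = 0 := by
  unfold dd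
  rw [if_neg]
  omega

theorem dd_c (t : ℕ) : dd (3 * t + 9) = X ^ 5 * aa ^ t := by
  unfold dd
  rw [if_pos (by omega), show (3 * t + 9 - 9) / 3 = t by omega]

/-- `x = j`. -/
theorem PP_cl {n k j : ℕ} (h : 2 * k + 1 = n + j) (hk : k < n) :
    PP n k = bb ^ (n - 1 - k) * gg j := by
  rw [PP_big (by omega) hk, show 2 * k + 1 - n = j by omega]

/-- `x = j`. -/
theorem UU_cl {n k j : ℕ} (h : 2 * k + 1 = n + j) (hk : k < n) :
    UU n k = bb ^ (n - 1 - k) * (gg j + dd j) := by
  unfold UU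
  rw [PP_cl h hk, show 2 * k + 1 - n = j by omega, mul_add]

theorem UU_eq {n k : ℕ} (h : 2 * k + 1 - n < 9 ∨ (2 * k + 1 - n) % 3 ≠ 0) : UU n k = PP n k := by
  unfold UU
  rw [dd_z h, mul_zero, add_zero]

theorem PP_le_UU (n k : ℕ) : Le (PP n k) (UU n k) := ⟨_, rfl⟩

theorem Ub.mono {V : Type} {H : SimpleGraph V} {S : Finset V} {p p' : ℕ[X]} (hp : Ub H S p)
    (h : Le p p') : Ub H S p' := fun q => (hp q).trans (lam_le h)

/-- `x ≤ 8`: known (`main_boundA`). -/
theorem ub_small {V : Type} {H : SimpleGraph V} {S : Finset V} (hk : ec H S < #S)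
    (h : 2 * ec H S ≤ #S + 7) : Ub H S (PP #S (ec H S)) := fun q =>
  main_boundA #S H S rfl hk q (Or.inr h)

/-- `Le` is compatible with sums on the left factor and so on. -/
theorem Le.mulr {p p' : ℕ[X]} (h : Le p p') (g : ℕ[X]) : Le (p * g) (p' * g) := by
  rw [mul_comm p, mul_comm p']
  exact Le.mul g h

theorem Le.zero (p : ℕ[X]) : Le 0 p := ⟨p, (zero_add p).symm⟩

end Pool.Agent.Lib.H20WE
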