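import Pool.Agent.Lib.H20WE.E1
import Pool.Agent.Lib.H20WE.D10
import Pool.Agent.Lib.H20WD.F3

/-! # F1: the maximum number of colourings for all numbers of colours -/

set_option autoImplicit false

namespace Pool.Agent.Lib.H20WE

open Finset Polynomial Pool.Agent.Lib.H20WD
open scoped Classical

/-- Upper bound and attained value. -/
theorem main_all {n k : ℕ} (hk : k < n) (q : ℕ) :
    IsGreatest {P | ∃ G : SimpleGraph (Fin n), G.edgeSet.ncard = n.choose 2 - k ∧
      Nat.card (G.Coloring (Fin q)) = P}
      (if n + 8 ≤ 2 * k ∧ (2 * k + 1 - n) % 3 = 0 then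
        max (lam n q (PP n k)) (lam n q (kk * PP (n - 4) (k - 6))) else lam n q (PP n k)) := by
  have hc := le_choose_two hk
  have att : ∀ p : ℕ[X], (∃ H, AttG n k p H) → ∃ G : SimpleGraph (Fin n),
      G.edgeSet.ncard = n.choose 2 - k ∧ Nat.card (G.Coloring (Fin q)) = lam n q p := by
    rintro p ⟨H, hH1, hH2, -, hH4⟩
    have h1 := card_edges ((H.comap (Fin.val : Fin n → ℕ))ᶜ)
    rw [compl_compl, ec_comap, hH2] at h1
    refine ⟨(H.comap (Fin.val : Fin n → ℕ))ᶜ, by omega, ?_⟩
    rw [card_coloring, compl_compl, cnt_comap, hH4]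
  have up : ∀ G : SimpleGraph (Fin n), G.edgeSet.ncard = n.choose 2 - k →
      Nat.card (G.Coloring (Fin q)) ≤ (if n + 8 ≤ 2 * k ∧ (2 * k + 1 - n) % 3 = 0 then
        max (lam n q (PP n k)) (lam n q (kk * PP (n - 4) (k - 6))) else lam n q (PP n k)) := by
    intro G hG
    have h2 := card_edges G
    have h3 : ec Gᶜ univ = k := by omega
    have hS : #(univ : Finset (Fin n)) = n := by rw [card_univ, Fintype.card_fin]
    rw [card_coloring]
    by_cases hNK : NoK Gᶜ univ
    · have h4 := (mainN (V := Fin n) n).2 Gᶜ univ hS (by rw [h3]; exact hk) hNK q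
      rw [h3, hS] at h4
      split_ifs
      · exact h4.trans (le_max_left _ _)
      · exact h4
    · unfold NoK at hNK
      push Not at hNK
      obtain ⟨a, ha⟩ := hNK
      split_ifs with hx
      · have h4 := ub_K (fun m _ => (mainN (V := Fin n) m).1) hS (by rw [h3]; exact hk) ha q
        rw [h3, hS, UU_eq (n := n - 4) (k := k - 6) (by omega)] at h4
        exact h4.trans (le_max_right _ _)
      · have h4 := (mainN (V := Fin n) n).1 Gᶜ univ hS (by rw [h3]; exact hk) q
        rw [h3, hS, UU_eq (by omega)] at h4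
        exact h4
  refine ⟨?_, ?_⟩
  · split_ifs with hx
    · rcases le_total (lam n q (PP n k)) (lam n q (kk * PP (n - 4) (k - 6))) with h | h
      · rw [max_eq_right h]
        exact att _ (att_LL hx.1 hk)
      · rw [max_eq_left h]
        exact att _ (att_PP hk)
    · exact att _ (att_PP hk)
  · rintro P ⟨G, hG, rfl⟩
    exact up G hG

end Pool.Agent.Lib.H20WE
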